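import Mathlib

set_option autoImplicit false

namespace Pool.Agent.P.MP_3b9ee7_co.NP

open Finset

variable {K L : Type} [Field K] [Field L] [Algebra K L]

/-- Fixed by the `(2s+1)`-st power. -/
def InE (σ : L ≃ₐ[K] L) (s : ℕ) (x : L) : Prop := (σ ^ (2 * s + 1)) x = x

/-- Value of the skew polynomial with coefficients `u 0, …, u s`. -/
def ev (σ : L ≃ₐ[K] L) (s : ℕ) (u : ℕ → L) (x : L) : L :=
  ∑ i ∈ range (s + 1), u i * (σ ^ i) x

/-- Product of a skew polynomial with a monomial on the right. -/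
def mono (σ : L ≃ₐ[K] L) (f : ℕ → L) (a : ℕ) (l : L) (n : ℕ) : L :=
  if a ≤ n then f (n - a) * (σ ^ (n - a)) l else 0

/-- Product of two skew polynomials. -/
def star (σ : L ≃ₐ[K] L) (s : ℕ) (f h : ℕ → L) (n : ℕ) : L :=
  ∑ a ∈ range (s + 1), mono σ f a (h a) n

/-- The exceptional coefficient vectors. -/
def InB (σ : L ≃ₐ[K] L) (s : ℕ) (u : ℕ → L) : Prop :=
  u s = 0 ∨ ∃ j, 1 ≤ j ∧ j ≤ s ∧ ∃ f h : ℕ → L, (∀ i, s - j < i → f i = 0) ∧
    (∀ a, InE σ s (h a)) ∧ (∀ a, j < a → h a = 0) ∧ ∀ n, n ≤ s → u n = star σ s f h n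

def Phi (σ : L ≃ₐ[K] L) (s : ℕ) (α β : ℕ → L) (z : L) : L :=
  ∑ j ∈ range (s + 1), (α j * (σ ^ j) z + β j * (σ ^ j) ((σ ^ (2 * s + 1)) z))

def gam (σ : L ≃ₐ[K] L) (s : ℕ) (α β u : ℕ → L) (n : ℕ) : L :=
  ∑ j ∈ range (s + 1), ∑ i ∈ range (s + 1),
    if j + i = n then α j * (σ ^ j) (u i) + β j * (σ ^ j) ((σ ^ (2 * s + 1)) (u i)) else 0

variable {σ : L ≃ₐ[K] L} {s : ℕ}

lemma pp (σ : L ≃ₐ[K] L) (a b : ℕ) (x : L) : (σ ^ a) ((σ ^ b) x) = (σ ^ (a + b)) x := by
  rw [pow_add, AlgEquiv.mul_apply]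

lemma pcomm (σ : L ≃ₐ[K] L) (a b : ℕ) (x : L) : (σ ^ a) ((σ ^ b) x) = (σ ^ b) ((σ ^ a) x) := by
  rw [pp, pp, add_comm]

lemma InE.zero : InE σ s 0 := by simp [InE]

lemma InE.one : InE σ s 1 := by simp [InE]

lemma InE.add {x y : L} (hx : InE σ s x) (hy : InE σ s y) : InE σ s (x + y) := by
  unfold InE at *; rw [map_add, hx, hy]

lemma InE.neg {x : L} (hx : InE σ s x) : InE σ s (-x) := by
  unfold InE at *; rw [map_neg, hx]

lemma InE.mul {x y : L} (hx : InE σ s x) (hy : InE σ s y) : InE σ s (x * y) := by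
  unfold InE at *; rw [map_mul, hx, hy]

lemma InE.inv {x : L} (hx : InE σ s x) : InE σ s x⁻¹ := by
  unfold InE at *; rw [map_inv₀, hx]

lemma InE.pow {x : L} (hx : InE σ s x) (n : ℕ) : InE σ s ((σ ^ n) x) := by
  unfold InE at *; rw [pcomm, hx]

lemma InE.symm {x : L} (hx : InE σ s x) (n : ℕ) : InE σ s ((σ ^ n).symm x) := by
  unfold InE at *
  apply (σ ^ n).injective
  rw [pcomm, AlgEquiv.apply_symm_apply, hx]

lemma Phi_ev (α β u : ℕ → L) {x : L} (hx : InE σ s x) :
    Phi σ s α β (ev σ s u x) = ∑ n ∈ range (2 * s + 1), gam σ s α β u n * (σ ^ n) x := by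
  unfold Phi gam ev
  simp only [Finset.sum_mul]
  rw [Finset.sum_comm]
  refine Finset.sum_congr rfl fun j hj => ?_
  rw [Finset.sum_comm]
  simp only [map_sum, map_mul, Finset.mul_sum, ← Finset.sum_add_distrib]
  refine Finset.sum_congr rfl fun i hi => ?_
  have h1 : j + i ∈ range (2 * s + 1) := by
    rw [mem_range] at *; omega
  simp only [ite_mul, zero_mul]
  rw [Finset.sum_ite_eq, if_pos h1]
  have h2 : (σ ^ (2 * s + 1)) ((σ ^ i) x) = (σ ^ i) x := hx.pow i
  rw [h2, pp σ j i x]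
  ring

lemma exists_syz (u : ℕ → L) : ∃ (α β : ℕ → L) (t : ℕ), t ≤ s ∧ (α t ≠ 0 ∨ β t ≠ 0) ∧
    (∀ j, t < j → α j = 0 ∧ β j = 0) ∧ ∀ n, n < 2 * s + 1 → gam σ s α β u n = 0 := by
  classical
  let v : Fin (s + 1) ⊕ Fin (s + 1) → (Fin (2 * s + 1) → L) := fun p n =>
    match p with
    | Sum.inl j => ∑ i ∈ range (s + 1), if j.1 + i = n.1 then (σ ^ j.1) (u i) else 0
    | Sum.inr j => ∑ i ∈ range (s + 1),
        if j.1 + i = n.1 then (σ ^ j.1) ((σ ^ (2 * s + 1)) (u i)) else 0
  have hv : ¬ LinearIndependent L v := by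
    intro h
    have := h.fintype_card_le_finrank
    simp at this
    omega
  obtain ⟨g, hg, p0, hp0⟩ := Fintype.not_linearIndependent_iff.mp hv
  let α : ℕ → L := fun j => if h : j < s + 1 then g (Sum.inl ⟨j, h⟩) else 0
  let β : ℕ → L := fun j => if h : j < s + 1 then g (Sum.inr ⟨j, h⟩) else 0
  have ha : ∀ j : Fin (s + 1), α j.1 = g (Sum.inl j) := fun j => dif_pos j.2
  have hb : ∀ j : Fin (s + 1), β j.1 = g (Sum.inr j) := fun j => dif_pos j.2
  have hne : ((range (s + 1)).filter fun j => α j ≠ 0 ∨ β j ≠ 0).Nonempty := by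
    rcases p0 with j | j
    · exact ⟨j.1, mem_filter.mpr ⟨mem_range.mpr j.2, Or.inl (by rw [ha]; exact hp0)⟩⟩
    · exact ⟨j.1, mem_filter.mpr ⟨mem_range.mpr j.2, Or.inr (by rw [hb]; exact hp0)⟩⟩
  obtain ⟨t, ht, hmax⟩ := Finset.exists_max_image _ (fun j => j) hne
  rw [mem_filter, mem_range] at ht
  refine ⟨α, β, t, by omega, ht.2, fun j hj => ?_, fun n hn => ?_⟩
  · by_cases h : j < s + 1
    · by_contra hc
      have := hmax j (mem_filter.mpr ⟨mem_range.mpr h, by tauto⟩)
      omega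
    · exact ⟨dif_neg h, dif_neg h⟩
  · have h := congrFun hg ⟨n, hn⟩
    rw [Fintype.sum_sum_type] at h
    simp only [Pi.add_apply, Finset.sum_apply, Pi.smul_apply, smul_eq_mul, Pi.zero_apply, v] at h
    unfold gam
    rw [Finset.sum_range]
    refine Eq.trans ?_ h
    rw [← Finset.sum_add_distrib]
    refine Finset.sum_congr rfl fun j _ => ?_
    rw [Finset.mul_sum, Finset.mul_sum, ← Finset.sum_add_distrib]
    refine Finset.sum_congr rfl fun i _ => ?_
    rw [ha, hb]
    split_ifs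
    · rfl
    · rw [mul_zero, mul_zero, add_zero]

lemma gam_top {α β v : ℕ → L} {t d : ℕ} (ht : t ≤ s) (hd : d ≤ s)
    (h0 : ∀ j, t < j → α j = 0 ∧ β j = 0) (hv : ∀ i, d < i → v i = 0) :
    gam σ s α β v (t + d) = α t * (σ ^ t) (v d) + β t * (σ ^ t) ((σ ^ (2 * s + 1)) (v d)) := by
  unfold gam
  rw [Finset.sum_eq_single t]
  · rw [Finset.sum_eq_single d]
    · simp
    · intro i _ hi
      rw [if_neg (by omega)]
    · intro h
      exact absurd (mem_range.mpr (by omega)) h
  · intro j _ hj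
    refine Finset.sum_eq_zero fun i _ => ?_
    split_ifs with h
    · rcases lt_or_gt_of_ne hj with h1 | h1
      · rw [hv i (by omega)]; simp
      · rw [(h0 j h1).1, (h0 j h1).2]; simp
    · rfl
  · intro h
    exact absurd (mem_range.mpr (by omega)) h

lemma ratio {a b u u' : L} {t : ℕ} (hab : a ≠ 0 ∨ b ≠ 0) (hu : u ≠ 0)
    (h1 : a * (σ ^ t) u + b * (σ ^ t) ((σ ^ (2 * s + 1)) u) = 0)
    (h2 : a * (σ ^ t) u' + b * (σ ^ t) ((σ ^ (2 * s + 1)) u') = 0) : InE σ s (u' / u) := by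
  set z := u' / u with hz
  have hu' : u' = u * z := by rw [hz]; field_simp
  have n1 : (σ ^ t) u ≠ 0 := (map_ne_zero _).mpr hu
  have n2 : (σ ^ t) ((σ ^ (2 * s + 1)) u) ≠ 0 := (map_ne_zero _).mpr ((map_ne_zero _).mpr hu)
  have hA : a * (σ ^ t) u ≠ 0 := by
    intro h
    have ha : a = 0 := (mul_eq_zero.mp h).resolve_right n1
    rw [h, zero_add] at h1
    have hb : b = 0 := (mul_eq_zero.mp h1).resolve_right n2
    tauto
  rw [hu', map_mul, map_mul, map_mul] at h2
  have h3 : a * (σ ^ t) u * ((σ ^ t) z - (σ ^ t) ((σ ^ (2 * s + 1)) z)) = 0 := by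
    linear_combination h2 - (σ ^ t) ((σ ^ (2 * s + 1)) z) * h1
  have h4 := (mul_eq_zero.mp h3).resolve_left hA
  exact ((σ ^ t).injective (sub_eq_zero.mp h4)).symm

lemma ev_sub (u v : ℕ → L) (x : L) : ev σ s (fun n => u n - v n) x = ev σ s u x - ev σ s v x := by
  simp only [ev, sub_mul, Finset.sum_sub_distrib]

lemma Phi_sub (α β : ℕ → L) (y z : L) :
    Phi σ s α β (y - z) = Phi σ s α β y - Phi σ s α β z := by
  simp only [Phi, map_sub, ← Finset.sum_sub_distrib]
  exact Finset.sum_congr rfl fun j _ => by ring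

lemma ev_mono {f : ℕ → L} {a : ℕ} (ha : a ≤ s) (hf : ∀ i, s - a < i → f i = 0) (l x : L) :
    ev σ s (mono σ f a l) x = ev σ s f (l * (σ ^ a) x) := by
  unfold ev
  have e1 : s + 1 = a + (s + 1 - a) := by omega
  have e2 : s + 1 = (s + 1 - a) + a := by omega
  conv_lhs => rw [e1, Finset.sum_range_add]
  conv_rhs => rw [e2, Finset.sum_range_add]
  have z1 : ∑ i ∈ range a, mono σ f a l i * (σ ^ i) x = 0 := by
    refine Finset.sum_eq_zero fun i hi => ?_
    rw [mem_range] at hi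
    simp [mono, not_le.mpr hi]
  have z2 : ∑ i ∈ range a, f (s + 1 - a + i) * (σ ^ (s + 1 - a + i)) (l * (σ ^ a) x) = 0 := by
    refine Finset.sum_eq_zero fun i _ => ?_
    rw [hf _ (by omega), zero_mul]
  rw [z1, z2, zero_add, add_zero]
  refine Finset.sum_congr rfl fun i _ => ?_
  simp only [mono, le_add_iff_nonneg_right, zero_le, if_true, add_tsub_cancel_left, map_mul]
  rw [pp, add_comm i a]
  ring

lemma mono_add (f : ℕ → L) (a : ℕ) (l l' : L) (n : ℕ) :
    mono σ f a (l + l') n = mono σ f a l n + mono σ f a l' n := by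
  unfold mono
  split_ifs
  · rw [map_add, mul_add]
  · simp

lemma mono_zero (f : ℕ → L) (a : ℕ) (n : ℕ) : mono σ f a 0 n = 0 := by
  simp [mono]

/-- The module of vectors killed by the syzygy. -/
def InM (σ : L ≃ₐ[K] L) (s : ℕ) (α β v : ℕ → L) : Prop :=
  (∀ i, s < i → v i = 0) ∧ ∀ x, InE σ s x → Phi σ s α β (ev σ s v x) = 0

lemma InM.sub_mono {α β v f : ℕ → L} (hv : InM σ s α β v) (hf : InM σ s α β f) {a : ℕ}
    (ha : a ≤ s) (hf0 : ∀ i, s - a < i → f i = 0) {l : L} (hl : InE σ s l) :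
    InM σ s α β (fun n => v n - mono σ f a l n) := by
  refine ⟨fun i hi => ?_, fun x hx => ?_⟩
  · simp only [mono]
    rw [hv.1 i hi, if_pos (by omega), hf0 _ (by omega)]
    simp
  · rw [ev_sub, Phi_sub, hv.2 x hx, ev_mono ha hf0, hf.2 _ (hl.mul (hx.pow a)), sub_zero]

/-- Independence of the powers of `σ` on the fixed field. -/
def Ind (σ : L ≃ₐ[K] L) (s : ℕ) : Prop :=
  ∀ γ : ℕ → L, (∀ x, InE σ s x → ∑ n ∈ range (2 * s + 1), γ n * (σ ^ n) x = 0) →
    ∀ n, n < 2 * s + 1 → γ n = 0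

lemma InM.top (hI : Ind σ s) {α β v : ℕ → L} {t d : ℕ} (ht : t ≤ s) (hd : d ≤ s)
    (h0 : ∀ j, t < j → α j = 0 ∧ β j = 0) (hM : InM σ s α β v) (hv : ∀ i, d < i → v i = 0) :
    α t * (σ ^ t) (v d) + β t * (σ ^ t) ((σ ^ (2 * s + 1)) (v d)) = 0 := by
  rw [← gam_top ht hd h0 hv]
  refine hI _ (fun x hx => ?_) _ (by omega)
  rw [← Phi_ev α β v hx]
  exact hM.2 x hx

lemma division (hI : Ind σ s) {α β f : ℕ → L} {t d : ℕ} (ht : t ≤ s) (hd : d ≤ s)
    (hab : α t ≠ 0 ∨ β t ≠ 0) (h0 : ∀ j, t < j → α j = 0 ∧ β j = 0) (hf : InM σ s α β f)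
    (hfd : f d ≠ 0) (hf0 : ∀ i, d < i → f i = 0)
    (hmin : ∀ v, InM σ s α β v → (∀ i, d ≤ i → v i = 0) → ∀ i, v i = 0) :
    ∀ D, D ≤ s + 1 → ∀ v, InM σ s α β v → (∀ i, D ≤ i → v i = 0) →
      ∃ h : ℕ → L, (∀ a, InE σ s (h a)) ∧ (∀ a, D ≤ a + d → h a = 0) ∧
        ∀ n, v n = star σ s f h n := by
  intro D
  induction D with
  | zero =>
    intro _ v _ hv0
    exact ⟨fun _ => 0, fun _ => InE.zero, fun _ _ => rfl, fun n => by
      rw [hv0 n (Nat.zero_le _)]; simp [star, mono_zero]⟩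
  | succ D ih =>
    intro hD v hv hv0
    by_cases hDd : D < d
    · exact ⟨fun _ => 0, fun _ => InE.zero, fun _ _ => rfl, fun n => by
        rw [hmin v hv (fun i hi => hv0 i (by omega)) n]; simp [star, mono_zero]⟩
    · have hz : InE σ s (v D / f d) :=
        ratio hab hfd (hf.top hI ht hd h0 hf0)
          (hv.top hI ht (by omega) h0 (fun i hi => hv0 i (by omega)))
      set l := (σ ^ d).symm (v D / f d) with hl
      have hlE : InE σ s l := hz.symm d
      have hM := hv.sub_mono hf (a := D - d) (by omega) (fun i hi => hf0 i (by omega)) hlE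
      obtain ⟨h, hE, hz0, hs⟩ := ih (by omega) _ hM (fun i hi => by
        simp only [mono]
        rw [if_pos (by omega)]
        rcases eq_or_lt_of_le hi with h1 | h1
        · subst h1
          have : D - (D - d) = d := by omega
          rw [this, hl, AlgEquiv.apply_symm_apply]
          field_simp
          ring
        · rw [hv0 i (by omega), hf0 _ (by omega)]; simp)
      refine ⟨fun a => h a + if a = D - d then l else 0, fun a => (hE a).add ?_, fun a ha => ?_,
        fun n => ?_⟩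
      · split_ifs
        · exact hlE
        · exact InE.zero
      · simp only
        rw [hz0 a (by omega), if_neg (by omega), add_zero]
      · have h1 := hs n
        simp only [star, mono_add, Finset.sum_add_distrib] at h1 ⊢
        rw [← h1, Finset.sum_eq_single (D - d)]
        · simp
        · intro a _ ha
          rw [if_neg ha, mono_zero]
        · intro h
          exact absurd (mem_range.mpr (by omega)) h

theorem uniq (hI : Ind σ s) {u u' : ℕ → L} (hB : ¬ InB σ s u) (hu : ∀ i, s < i → u i = 0)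
    (hu' : ∀ i, s < i → u' i = 0)
    (hsub : ∀ x, InE σ s x → ∃ y, InE σ s y ∧ ev σ s u' x = ev σ s u y) :
    ∃ e, InE σ s e ∧ ∀ n, u' n = u n * (σ ^ n) e := by
  classical
  obtain ⟨α, β, t, ht, hab, h0, hg⟩ := exists_syz (σ := σ) (s := s) u
  have hM : InM σ s α β u := ⟨hu, fun x hx => by
    rw [Phi_ev α β u hx]
    exact Finset.sum_eq_zero fun n hn => by rw [hg n (mem_range.mp hn), zero_mul]⟩
  have hM' : InM σ s α β u' := ⟨hu', fun x hx => by
    obtain ⟨y, hy, e⟩ := hsub x hx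
    rw [e]
    exact hM.2 y hy⟩
  have hus : u s ≠ 0 := fun h => hB (Or.inl h)
  have key : ∀ v, InM σ s α β v → v s = 0 → ∀ i, v i = 0 := by
    intro v hv hvs
    by_contra hc
    push Not at hc
    have hP : ∃ D, ∃ f, InM σ s α β f ∧ (∃ i, f i ≠ 0) ∧ ∀ i, D ≤ i → f i = 0 :=
      ⟨s, v, hv, hc, fun i hi => by
        rcases eq_or_lt_of_le hi with h | h
        · rw [← h]; exact hvs
        · exact hv.1 i h⟩
    have hle : Nat.find hP ≤ s := Nat.find_min' hP ⟨v, hv, hc, fun i hi => by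
        rcases eq_or_lt_of_le hi with h | h
        · rw [← h]; exact hvs
        · exact hv.1 i h⟩
    obtain ⟨f, hf, ⟨i0, hi0⟩, hf0⟩ := Nat.find_spec hP
    have hpos : 0 < Nat.find hP := by
      by_contra h
      exact hi0 (hf0 i0 (by omega))
    set d := Nat.find hP - 1 with hd
    have hmin : ∀ v, InM σ s α β v → (∀ i, d ≤ i → v i = 0) → ∀ i, v i = 0 := by
      intro w hw hw0
      by_contra hc'
      push Not at hc'
      exact Nat.find_min hP (show d < Nat.find hP by omega) ⟨w, hw, hc', hw0⟩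
    have hfd : f d ≠ 0 := by
      intro h
      refine hi0 (hmin f hf (fun i hi => ?_) i0)
      rcases eq_or_lt_of_le hi with h1 | h1
      · rw [← h1]; exact h
      · exact hf0 i (by omega)
    obtain ⟨h, hE, hz, hs⟩ := division hI ht (show d ≤ s by omega) hab h0 hf hfd
      (fun i hi => hf0 i (by omega)) hmin (s + 1) le_rfl u hM (fun i hi => hu i (by omega))
    exact hB (Or.inr ⟨s - d, by omega, by omega, f, h, fun i hi => hf0 i (by omega), hE,
      fun a ha => hz a (by omega), fun n _ => hs n⟩)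
  have hz : InE σ s (u' s / u s) :=
    ratio hab hus (hM.top hI ht le_rfl h0 hu) (hM'.top hI ht le_rfl h0 hu')
  refine ⟨(σ ^ s).symm (u' s / u s), hz.symm s, fun n => ?_⟩
  have h1 := key _ (hM'.sub_mono hM (a := 0) (Nat.zero_le _) (fun i hi => hu i (by omega))
    (hz.symm s)) (by
      simp only [mono, Nat.zero_le, if_true, Nat.sub_zero, AlgEquiv.apply_symm_apply]
      field_simp
      ring) n
  simp only [mono, Nat.zero_le, if_true, Nat.sub_zero] at h1
  exact sub_eq_zero.mp h1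

theorem inB_of_ev_one (hs : 1 ≤ s) {u : ℕ → L} (h : ev σ s u 1 = 0) : InB σ s u := by
  refine Or.inr ⟨1, le_rfl, hs, fun i => if i < s then -∑ r ∈ range (i + 1), u r else 0,
    fun a => if a = 0 then -1 else if a = 1 then 1 else 0, fun i hi => if_neg (by omega),
    fun a => ?_, fun a ha => by simp only; rw [if_neg (by omega), if_neg (by omega)], fun n hn => ?_⟩
  · simp only
    split_ifs
    · exact InE.one.neg
    · exact InE.one
    · exact InE.zero
  · have e1 : s + 1 = 2 + (s - 1) := by omega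
    unfold star
    rw [e1, Finset.sum_range_add, Finset.sum_range_succ, Finset.sum_range_one]
    have z : ∑ x ∈ range (s - 1), mono σ (fun i => if i < s then -∑ r ∈ range (i + 1), u r else 0)
        (2 + x) (if 2 + x = 0 then -1 else if 2 + x = 1 then 1 else 0) n = 0 := by
      refine Finset.sum_eq_zero fun x _ => ?_
      rw [if_neg (by omega), if_neg (by omega), mono_zero]
    rw [z]
    simp only [ev, map_one, mul_one] at h
    simp only [mono, if_true, Nat.zero_le, Nat.sub_zero, map_neg, map_one, one_ne_zero, if_false,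
      mul_one, mul_neg, add_zero]
    rcases Nat.eq_zero_or_pos n with h0 | h0
    · subst h0
      simp [show 0 < s by omega]
    · rw [if_pos (show 1 ≤ n from h0), if_pos (show n - 1 < s by omega),
        show n - 1 + 1 = n by omega]
      rcases eq_or_lt_of_le hn with h1 | h1
      · subst h1
        rw [if_neg (lt_irrefl _)]
        rw [Finset.sum_range_succ] at h
        linear_combination h
      · rw [if_pos h1, Finset.sum_range_succ]
        ring

end Pool.Agent.P.MP_3b9ee7_co.NP
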