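import Pool.Agent.P.MP_3b9ee7_co.NP.Use

set_option autoImplicit false

namespace Pool.Agent.P.MP_3b9ee7_co.NP

open Finset
open scoped Classical

variable {K E : Type} [Field K] [Field E] [Algebra K E]

/-- Scaling and shear of the core. -/
def th (ρ : E) (f : E →ₗ[K] E) : E × E →ₗ[K] E × E :=
  (LinearMap.prodMap (LinearMap.mulLeft K ρ) LinearMap.id).comp (tau f)

lemma mem_th {ρ : E} {f : E →ₗ[K] E} {U : Submodule K (E × E)} {x y : E} :
    (x, y) ∈ U.map (th ρ f) ↔ ∃ x0, (x0, y) ∈ U ∧ x = ρ * (x0 + f y) := by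
  rw [Submodule.mem_map]
  constructor
  · rintro ⟨⟨p0, y0⟩, h, e⟩
    have e1 : ρ * (p0 + f y0) = x := congrArg Prod.fst e
    have e2 : y0 = y := congrArg Prod.snd e
    subst e2
    exact ⟨p0, h, e1.symm⟩
  · rintro ⟨p0, h, rfl⟩
    exact ⟨(p0, y), h, rfl⟩

lemma th_bij {ρ : E} (h : ρ ≠ 0) (f : E →ₗ[K] E) : Function.Bijective (th ρ f) := by
  refine ⟨fun v w e => ?_, fun v => ⟨(ρ⁻¹ * v.1 - f v.2, v.2), Prod.ext ?_ rfl⟩⟩
  · have e1 : ρ * (v.1 + f v.2) = ρ * (w.1 + f w.2) := congrArg Prod.fst e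
    have e2 : v.2 = w.2 := (congrArg Prod.snd e : (th ρ f v).2 = (th ρ f w).2)
    rw [e2] at e1
    exact Prod.ext (add_right_cancel (mul_left_cancel₀ h e1)) e2
  · change ρ * (ρ⁻¹ * v.1 - f v.2 + f v.2) = v.1
    rw [sub_add_cancel, mul_inv_cancel_left₀ h]

variable [Fintype K] [Fintype E] {σ : E ≃ₐ[K] E} {n l : ℕ}

noncomputable def boxP {E : Type} [Field E] [Fintype E] (n : ℕ) (S S' : Finset E) :
    Finset (Fin (n + 1) → E) :=
  Fintype.piFinset fun j => if j.1 = 0 then {0} else if j.1 = 1 then S else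
    if j.1 = n then S' else univ

lemma mem_boxP (hn : 2 ≤ n) {S S' : Finset E} {ψ : Fin (n + 1) → E} :
    ψ ∈ boxP n S S' ↔ ext0 n ψ 0 = 0 ∧ ext0 n ψ 1 ∈ S ∧ ext0 n ψ n ∈ S' := by
  rw [boxP, Fintype.mem_piFinset]
  constructor
  · intro h
    have h0 := h ⟨0, by omega⟩
    have h1 := h ⟨1, by omega⟩
    have h2 := h ⟨n, by omega⟩
    rw [if_pos rfl, mem_singleton, ← ext0_fin ψ] at h0
    rw [if_neg (by simp), if_pos rfl, ← ext0_fin ψ] at h1
    rw [if_neg (by simp only; omega), if_neg (by simp only; omega), if_pos rfl,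
      ← ext0_fin ψ] at h2
    exact ⟨h0, h1, h2⟩
  · rintro ⟨h0, h1, h2⟩ j
    rw [← ext0_fin ψ j]
    split_ifs with a b c
    · rw [a, h0]; exact mem_singleton_self _
    · rw [b]; exact h1
    · rw [c]; exact h2
    · exact mem_univ _

lemma card_boxP (hn : 2 ≤ n) (S S' : Finset E) :
    (boxP n S S').card = S.card * S'.card * Fintype.card E ^ (n - 2) := by
  obtain ⟨m, rfl⟩ : ∃ m, n = m + 2 := ⟨n - 2, by omega⟩
  rw [boxP, Fintype.card_piFinset]
  let f : ℕ → ℕ := fun j => (if j = 0 then ({0} : Finset E) else if j = 1 then S else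
    if j = m + 2 then S' else univ).card
  have h : ∏ j : Fin (m + 2 + 1), f j.1 = ∏ j ∈ range (m + 2 + 1), f j :=
    (Finset.prod_range f).symm
  refine Eq.trans h ?_
  rw [Finset.prod_range_succ, Finset.prod_range_succ', Finset.prod_range_succ']
  have h1 : ∏ j ∈ range m, f (j + 1 + 1) = Fintype.card E ^ m := by
    rw [Finset.prod_congr rfl (g := fun _ => Fintype.card E), Finset.prod_const, card_range]
    intro j hj
    rw [mem_range] at hj
    simp only [f]
    rw [if_neg (by omega), if_neg (by omega), if_neg (by omega), card_univ]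
  have h2 : f (m + 2) = S'.card := by
    simp only [f]
    rw [if_neg (by omega), if_neg (by omega), if_pos trivial]
  have h3 : f (0 + 1) = S.card := by simp [f]
  have h4 : f 0 = 1 := by simp [f]
  rw [h1, h2, h3, h4, add_tsub_cancel_right]
  ring

/-- The multiples of a vector. -/
noncomputable def Kc (K : Type) {E : Type} [Field K] [Field E] [Algebra K E] [Fintype K]
    (c' : E) : Finset E := univ.image fun t : K => t • c'

omit [Fintype E] in
lemma mem_Kc {c' z : E} : z ∈ Kc K c' ↔ ∃ t : K, z = t • c' := by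
  simp only [Kc, mem_image, mem_univ, true_and, eq_comm]

omit [Fintype E] in
lemma card_Kc {c' : E} (hc : c' ≠ 0) : (Kc K c').card = Fintype.card K := by
  rw [Kc, card_image_of_injective _ (smul_left_injective K hc), card_univ]

noncomputable def boxA (K E : Type) [Field K] [Field E] [Algebra K E] [Fintype E] (n l : ℕ) :
    Finset (Fin (l + 1) → Fin (n + 1) → E) :=
  Fintype.piFinset fun i => Fintype.piFinset fun j =>
    if j = Fin.last n then (if i = 0 then univ.filter fun y : E => tr K (1 * y) = 0 else {0})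
    else univ

omit [Fintype K] in
lemma InA_of_boxA {η : Fin (l + 1) → Fin (n + 1) → E} (h : η ∈ boxA K E n l) : InA K n η := by
  rw [boxA, Fintype.mem_piFinset] at h
  have e : ∀ i, ext0 n (η i) n = η i (Fin.last n) := fun i => ext0_fin (η i) (Fin.last n)
  refine ⟨?_, fun i hi => ?_⟩
  · have := Fintype.mem_piFinset.mp (h 0) (Fin.last n)
    rw [if_pos rfl, if_pos rfl, mem_filter, one_mul] at this
    rw [e]; exact this.2
  · have := Fintype.mem_piFinset.mp (h i) (Fin.last n)
    rw [if_pos rfl, if_neg hi, mem_singleton] at this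
    rw [e]; exact this

lemma HB.card_boxA (H : HB σ n) (l : ℕ) :
    (boxA K E n l).card = Fintype.card K ^ n * Fintype.card E ^ (n * (l + 1)) := by
  rw [boxA, Fintype.card_piFinset]
  have h1 : ∀ S : Finset E, (Fintype.piFinset fun j : Fin (n + 1) =>
      if j = Fin.last n then S else univ).card = Fintype.card E ^ n * S.card := by
    intro S
    rw [Fintype.card_piFinset, Fin.prod_univ_castSucc, if_pos rfl]
    congr 1
    rw [Finset.prod_congr rfl (g := fun _ => Fintype.card E), Finset.prod_const, card_univ,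
      Fintype.card_fin]
    intro j _
    rw [if_neg (Fin.castSucc_lt_last j).ne, card_univ]
  simp only [h1]
  rw [Fin.prod_univ_succ, if_pos rfl, H.card_fibre one_ne_zero,
    Finset.prod_congr rfl (g := fun _ => Fintype.card E ^ n), Finset.prod_const, card_univ,
    Fintype.card_fin]
  · ring
  · intro i _
    rw [if_neg (Fin.succ_ne_zero i), card_singleton, mul_one]

/-- The index set of the classes. -/
noncomputable def Ix (K : Type) {E : Type} [Field K] [Field E] [Algebra K E] [Fintype K]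
    [Fintype E] (n l : ℕ) (c' : E) :
    Finset ((Fin (l + 1) → Fin (n + 1) → E) × (Fin (n + 1) → E)) :=
  boxA K E n l ×ˢ boxP n univ (Kc K c')

lemma HB.card_Ix (H : HB σ n) (l : ℕ) {c' : E} (hc : c' ≠ 0) :
    (Ix K n l c').card = Fintype.card K ^ ((n + 1) * (n * (l + 2))) := by
  rw [Ix, card_product, H.card_boxA, card_boxP H.hn, card_Kc hc, card_univ, H.card]
  obtain ⟨m, rfl⟩ : ∃ m, n = m + 2 := ⟨n - 2, by have := H.hn; omega⟩
  rw [add_tsub_cancel_right]
  ring

lemma mem_Ix (hn : 2 ≤ n) {c' : E} {u : (Fin (l + 1) → Fin (n + 1) → E) × (Fin (n + 1) → E)}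
    (h : u ∈ Ix K n l c') : InA K n u.1 ∧ ext0 n u.2 0 = 0 ∧
      ∃ t : K, ext0 n u.2 n = t • c' := by
  obtain ⟨h1, h2⟩ := mem_product.mp h
  obtain ⟨a, -, c⟩ := (mem_boxP hn).mp h2
  exact ⟨InA_of_boxA h1, a, mem_Kc.mp c⟩

noncomputable def lamOf (K : Type) {E : Type} [Field K] [Field E] [Algebra K E] (n : ℕ)
    (ψ : Fin (n + 1) → E) : K :=
  if tr K (ext0 n ψ 1) ≠ 0 then tr K (ext0 n ψ 1)
  else if tr K (ext0 n ψ n) ≠ 0 then tr K (ext0 n ψ n) else 1

/-- The rotation of the spread of the quotient used by a class. -/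
noncomputable def aOf (K : Type) {E : Type} [Field K] [Field E] [Algebra K E] (n : ℕ) (a0 : E)
    (ψ : Fin (n + 1) → E) : E :=
  lamOf K n ψ • (a0 + (ext0 n ψ 1 - tr K (ext0 n ψ 1) • a0))

omit [Fintype K] [Fintype E] in
lemma lamOf_ne (ψ : Fin (n + 1) → E) : lamOf K n ψ ≠ 0 := by
  unfold lamOf
  split_ifs with h1 h2
  · exact h1
  · exact h2
  · exact one_ne_zero

omit [Fintype K] [Fintype E] in
lemma tr_aOf {a0 : E} (ha0 : tr K a0 = 1) (ψ : Fin (n + 1) → E) :
    tr K (aOf K n a0 ψ) = lamOf K n ψ := by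
  rw [aOf, map_smul, map_add, map_sub, map_smul, ha0]
  simp

omit [Fintype K] [Fintype E] in
lemma tr_aOf_ne {a0 : E} (ha0 : tr K a0 = 1) (ψ : Fin (n + 1) → E) :
    tr K (aOf K n a0 ψ) ≠ 0 := by
  rw [tr_aOf ha0]; exact lamOf_ne ψ

lemma HB.card_lam (H : HB σ n) {c' : E} (hc : tr K c' ≠ 0) (v : K) :
    ((boxP n univ (Kc K c')).filter fun ψ => lamOf K n ψ = v).card ≤
      Fintype.card K ^ n * Fintype.card E ^ (n - 2) *
        (Fintype.card K + 1 + if v = 1 then 1 else 0) := by
  have hs : ((boxP n univ (Kc K c')).filter fun ψ => lamOf K n ψ = v) ⊆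
      (boxP n (univ.filter fun y : E => tr K (1 * y) = v) (Kc K c') ∪
        boxP n (univ.filter fun y : E => tr K (1 * y) = 0) {(v / tr K c') • c'}) ∪
        if v = 1 then boxP n (univ.filter fun y : E => tr K (1 * y) = 0) {0} else ∅ := by
    intro ψ hψ
    obtain ⟨h1, h2⟩ := mem_filter.mp hψ
    obtain ⟨a, -, b⟩ := (mem_boxP H.hn).mp h1
    obtain ⟨t, ht⟩ := mem_Kc.mp b
    have e : tr K (ext0 n ψ n) = t * tr K c' := by rw [ht, map_smul, smul_eq_mul]
    unfold lamOf at h2
    split_ifs at h2 with c1 c2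
    · exact mem_union_left _ (mem_union_left _ ((mem_boxP H.hn).mpr
        ⟨a, mem_filter.mpr ⟨mem_univ _, by rw [one_mul, h2]⟩, b⟩))
    · refine mem_union_left _ (mem_union_right _ ((mem_boxP H.hn).mpr
        ⟨a, mem_filter.mpr ⟨mem_univ _, by rw [one_mul, not_not.mp c1]⟩, ?_⟩))
      rw [mem_singleton, ht, ← h2, e, mul_div_cancel_right₀ _ hc]
    · refine mem_union_right _ ?_
      rw [if_pos h2.symm]
      refine (mem_boxP H.hn).mpr
        ⟨a, mem_filter.mpr ⟨mem_univ _, by rw [one_mul, not_not.mp c1]⟩, ?_⟩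
      have := not_not.mp c2
      rw [e] at this
      rw [mem_singleton, ht, (mul_eq_zero.mp this).resolve_right hc, zero_smul]
  refine (card_le_card hs).trans ((card_union_le _ _).trans
    ((Nat.add_le_add_right (card_union_le _ _) _).trans (le_of_eq ?_)))
  rw [card_boxP H.hn, card_boxP H.hn, H.card_fibre one_ne_zero, H.card_fibre one_ne_zero,
    card_Kc (ne_of_tr hc), card_singleton]
  split_ifs
  · rw [card_boxP H.hn, H.card_fibre one_ne_zero, card_singleton]; ring
  · rw [card_empty]; ring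

omit [Fintype K] [Fintype E] in
lemma piP_mul (μ ν : E) (j : ℕ) : piP σ (μ * ν) j = piP σ μ j * piP σ ν j := by
  simp only [piP, map_mul, Finset.prod_mul_distrib]

omit [Fintype K] in
lemma card_norm_le {N : E} (hN : N ≠ 0) :
    (univ.filter fun μ : E => piP σ μ (n + 1) = N).card ≤
      (univ.filter fun μ : E => piP σ μ (n + 1) = 1).card := by
  rcases (univ.filter fun μ : E => piP σ μ (n + 1) = N).eq_empty_or_nonempty with h | ⟨μ0, h0⟩
  · rw [h]; simp
  have e0 := (mem_filter.mp h0).2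
  have hμ : μ0 ≠ 0 := by
    rintro rfl
    exact hN (by rw [← e0, piP_succ, zero_mul])
  refine card_le_card_of_injOn (fun μ => μ * μ0⁻¹) ?_ ?_
  · intro μ h
    refine mem_coe.mpr (mem_filter.mpr ⟨mem_univ _, mul_right_cancel₀ hN ?_⟩)
    have e1 := (mem_filter.mp (mem_coe.mp h)).2
    conv_lhs => rw [← e0, ← piP_mul, inv_mul_cancel_right₀ hμ, e1]
    rw [one_mul]
  · intro μ _ μ' _ e
    exact mul_right_cancel₀ (inv_ne_zero hμ) e

omit [Fintype K] in
lemma card_norm_pos : 1 ≤ (univ.filter fun μ : E => piP σ μ (n + 1) = 1).card :=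
  card_pos.mpr ⟨1, mem_filter.mpr ⟨mem_univ _, by simp [piP]⟩⟩

lemma HB.card_norm_ge (H : HB σ n) :
    Fintype.card E ≤ Fintype.card K * (univ.filter fun μ : E => piP σ μ (n + 1) = 1).card := by
  have h1 := card_le_mul_card_image_of_maps_to (f := fun μ : E => piP σ μ (n + 1))
    (s := univ.erase 0) (t := (univ.erase (0 : K)).image (algebraMap K E)) (fun μ hμ => by
      obtain ⟨t, ht⟩ := H.fix (H.norm_fix μ)
      refine mem_image.mpr ⟨t, mem_erase.mpr ⟨?_, mem_univ _⟩, ht⟩
      rintro rfl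
      exact piP_ne (mem_erase.mp hμ).1 _ (by rw [← ht, map_zero]))
    (univ.filter fun μ : E => piP σ μ (n + 1) = 1).card (fun b hb => by
      obtain ⟨t, ht, rfl⟩ := mem_image.mp hb
      exact (card_le_card (filter_subset_filter _ (erase_subset _ _))).trans
        (card_norm_le ((map_ne_zero _).mpr (mem_erase.mp ht).1)))
  rw [card_image_of_injective _ (algebraMap K E).injective, card_erase_of_mem (mem_univ _),
    card_erase_of_mem (mem_univ _), card_univ, card_univ] at h1
  have h2 := card_norm_pos (σ := σ) (n := n)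
  obtain ⟨r, hr⟩ : ∃ r, Fintype.card K = r + 1 := ⟨Fintype.card K - 1, by
    have := Fintype.card_pos (α := K); omega⟩
  rw [hr] at h1 ⊢
  rw [add_tsub_cancel_right, mul_comm] at h1
  rw [add_mul, one_mul]
  omega

omit [Fintype K] in
lemma card_G : (univ.filter fun o : Option E => IsG σ n o ∧ o ≠ some 0).card +
    (univ.filter fun μ : E => piP σ μ (n + 1) = 1).card ≤ Fintype.card E := by
  rw [← card_image_of_injective (univ.filter fun μ : E => piP σ μ (n + 1) = 1)
    (Option.some_injective E), ← card_union_of_disjoint]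
  · refine (card_le_card (t := univ.erase (some 0)) fun o ho => ?_).trans (le_of_eq ?_)
    · refine mem_erase.mpr ⟨?_, mem_univ _⟩
      rcases mem_union.mp ho with h | h
      · exact (mem_filter.mp h).2.2
      · obtain ⟨μ, hμ, rfl⟩ := mem_image.mp h
        intro e
        have := (mem_filter.mp hμ).2
        rw [Option.some_injective E e, piP_succ, zero_mul] at this
        exact zero_ne_one this
    · rw [card_erase_of_mem (mem_univ _), card_univ, Fintype.card_option, add_tsub_cancel_right]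
  · refine Finset.disjoint_left.mpr fun o h h' => ?_
    obtain ⟨μ, hμ, rfl⟩ := mem_image.mp h'
    exact (mem_filter.mp h).2.1 (mem_filter.mp hμ).2

omit [Fintype K] in
lemma card_bar (z : E) :
    ((univ.filter fun o : Option E => IsG σ n o ∧ o ≠ some 0).filter
      fun o => bT σ n o n = z).card ≤ (univ.filter fun μ : E => piP σ μ (n + 1) = 1).card := by
  rcases ((univ.filter fun o : Option E => IsG σ n o ∧ o ≠ some 0).filter
    fun o => bT σ n o n = z).eq_empty_or_nonempty with h | ⟨o1, h1⟩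
  · rw [h]; simp
  obtain ⟨h1, e1⟩ := mem_filter.mp h1
  obtain ⟨-, g1, n1⟩ := mem_filter.mp h1
  have aux : ∀ μ : E, IsG σ n (some μ) → bT σ n (some μ) n ≠ bT σ n none n := by
    intro μ hμ h
    have hN : 1 - piP σ μ (n + 1) ≠ 0 := sub_ne_zero.mpr (Ne.symm hμ)
    simp only [bT, if_true] at h
    rw [div_eq_iff hN] at h
    exact one_ne_zero (α := E) (by linear_combination h)
  rcases o1 with _ | μ1
  · refine le_trans (card_le_card (t := {none}) fun o ho => ?_) card_norm_pos
    obtain ⟨ho, e⟩ := mem_filter.mp ho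
    rcases o with _ | μ
    · exact mem_singleton_self _
    · exact absurd (e.trans e1.symm) (aux μ (mem_filter.mp ho).2.1)
  · refine le_trans (card_le_card (t := (univ.filter fun μ : E =>
      piP σ μ (n + 1) = piP σ μ1 (n + 1)).image some) fun o ho => ?_)
      (card_image_le.trans (card_norm_le (piP_ne (fun h => n1 (by rw [h])) _)))
    obtain ⟨ho, e⟩ := mem_filter.mp ho
    rcases o with _ | μ
    · exact absurd (e1.trans e.symm) (aux μ1 g1)
    · refine mem_image.mpr ⟨μ, mem_filter.mpr ⟨mem_univ _, ?_⟩, rfl⟩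
      have hN : 1 - piP σ μ (n + 1) ≠ 0 := sub_ne_zero.mpr (Ne.symm (mem_filter.mp ho).2.1)
      have hN' : 1 - piP σ μ1 (n + 1) ≠ 0 := sub_ne_zero.mpr (Ne.symm g1)
      have h2 := e.trans e1.symm
      simp only [bT] at h2
      rw [div_eq_div_iff hN hN'] at h2
      linear_combination h2

noncomputable def usr (σ : E ≃ₐ[K] E) (n l : ℕ) (c' a0 : E)
    (A : Submodule K ((Fin (l + 1) → E) × E)) :
    Finset ((Fin (l + 1) → Fin (n + 1) → E) × (Fin (n + 1) → E)) :=
  (Ix K n l c').filter fun u => ∃ (i : Fin (l + 1)) (o : Option E) (c : Fin (l + 1) → E),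
    o ≠ some 0 ∧ A = Mem σ n u.1 (aOf K n a0 u.2) i o c

lemma HB.card_usr (H : HB σ n) {c' a0 : E} (hc : tr K c' ≠ 0) (ha0 : tr K a0 = 1)
    (A : Submodule K ((Fin (l + 1) → E) × E)) :
    (usr σ n l c' a0 A).card ≤ Fintype.card E ^ n := by
  rcases (usr σ n l c' a0 A).eq_empty_or_nonempty with h | ⟨u0, hu0⟩
  · rw [h]; simp
  have key : ∀ u : (Fin (l + 1) → Fin (n + 1) → E) × (Fin (n + 1) → E),
      ∃ (i : Fin (l + 1)) (o : Option E) (c : Fin (l + 1) → E), u ∈ usr σ n l c' a0 A →
        o ≠ some 0 ∧ A = Mem σ n u.1 (aOf K n a0 u.2) i o c := by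
    intro u
    by_cases h : u ∈ usr σ n l c' a0 A
    · obtain ⟨i, o, c, h'⟩ := (mem_filter.mp h).2
      exact ⟨i, o, c, fun _ => h'⟩
    · exact ⟨0, none, 0, fun h' => absurd h' h⟩
  choose i o c hr using key
  have hI : ∀ u ∈ usr σ n l c' a0 A, InA K n u.1 ∧ ext0 n u.2 0 = 0 ∧
      ∃ t : K, ext0 n u.2 n = t • c' := fun u hu => mem_Ix H.hn (mem_filter.mp hu).1
  have heq : ∀ u ∈ usr σ n l c' a0 A, ∀ u' ∈ usr σ n l c' a0 A,
      Mem σ n u.1 (aOf K n a0 u.2) (i u) (o u) (c u) =
        Mem σ n u'.1 (aOf K n a0 u'.2) (i u') (o u') (c u') :=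
    fun u hu u' hu' => (hr u hu).2.symm.trans (hr u' hu').2
  have hta : ∀ ψ : Fin (n + 1) → E, tr K (aOf K n a0 ψ) ≠ 0 := tr_aOf_ne ha0
  obtain ⟨m, hm⟩ : ∃ m, n = m + 2 := ⟨n - 2, by have := H.hn; omega⟩
  by_cases hG : IsG σ n (o u0)
  · have hG' : ∀ u ∈ usr σ n l c' a0 A, IsG σ n (o u) := fun u hu =>
      H.G_of_G (ne_of_tr (hta _)) (heq u0 hu0 u hu) hG
    set θ := tr K (bT σ n (o u0) n * aOf K n a0 u0.2) with hθ
    rw [card_eq_sum_card_fiberwise (f := o)
      (t := univ.filter fun o : Option E => IsG σ n o ∧ o ≠ some 0)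
      (fun u hu => mem_coe.mpr (mem_filter.mpr ⟨mem_univ _, hG' u hu, (hr u hu).1⟩))]
    have h1 : ∀ b ∈ univ.filter fun o : Option E => IsG σ n o ∧ o ≠ some 0,
        ((usr σ n l c' a0 A).filter fun u => o u = b).card ≤
        Fintype.card K ^ n * Fintype.card E ^ (n - 2) *
          (Fintype.card K + 1 + if bT σ n b n = algebraMap K E θ then 1 else 0) := by
      intro b hb
      obtain ⟨β, hβ⟩ := H.bar b
      have hβ0 : β ≠ 0 := fun h =>
        bar_ne (mem_filter.mp hb).2.1 (mem_filter.mp hb).2.2 (by rw [← hβ, h, map_zero])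
      have e : (θ / β = 1) ↔ bT σ n b n = algebraMap K E θ := by
        rw [div_eq_one_iff_eq hβ0, ← hβ, (algebraMap K E).injective.eq_iff, eq_comm]
      have := H.card_lam hc (θ / β)
      simp only [e] at this
      refine le_trans (card_le_card_of_injOn Prod.snd ?_ ?_) this
      · intro u hu
        obtain ⟨hu, e⟩ := mem_filter.mp (mem_coe.mp hu)
        refine mem_coe.mpr (mem_filter.mpr ⟨(mem_product.mp (mem_filter.mp hu).1).2, ?_⟩)
        have h2 := (H.G_two (hI u hu).1 (hI u0 hu0).1 (hta _) (hta _) (hr u hu).1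
          (hr u0 hu0).1 (heq u hu u0 hu0) (hG' u hu) hG).1
        rw [← hθ, e, ← hβ, ← Algebra.smul_def, map_smul, tr_aOf ha0, smul_eq_mul] at h2
        rw [eq_div_iff hβ0, mul_comm, h2]
      · intro u hu u' hu' e2
        obtain ⟨hu, e⟩ := mem_filter.mp (mem_coe.mp hu)
        obtain ⟨hu', e'⟩ := mem_filter.mp (mem_coe.mp hu')
        exact Prod.ext ((H.G_two (hI u hu).1 (hI u' hu').1 (hta _) (hta _)
          (hr u hu).1 (hr u' hu').1 (heq u hu u' hu') (hG' u hu) (hG' u' hu')).2
          (by rw [e2]) (e.trans e'.symm)) e2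
    refine (Finset.sum_le_sum h1).trans ?_
    rw [← Finset.mul_sum, Finset.sum_add_distrib, Finset.sum_const, ← card_filter, smul_eq_mul]
    have a1 := card_G (σ := σ) (n := n)
    have a2 := card_bar (σ := σ) (n := n) (algebraMap K E θ)
    have a3 := H.card_norm_ge
    have a4 : (univ.filter fun o : Option E => IsG σ n o ∧ o ≠ some 0).card *
        (Fintype.card K + 1) + ((univ.filter fun o : Option E => IsG σ n o ∧ o ≠ some 0).filter
          fun o => bT σ n o n = algebraMap K E θ).card ≤ Fintype.card K * Fintype.card E := by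
      nlinarith
    refine (Nat.mul_le_mul_left _ a4).trans (le_of_eq ?_)
    rw [H.card, hm, add_tsub_cancel_right]
    ring
  · obtain ⟨x, p0, hx, a1, -, a3, a4, a5⟩ := H.memH u0.1 (a := aOf K n a0 u0.2) (i u0) (c u0) hG
    have hb0 := ne_of_tr (hta u0.2)
    have hp0 : p0 ≠ 0 := fun h => mul_ne_zero hb0 hx (by rw [← a1, h]; rfl)
    have h1 := card_le_mul_card_image_of_maps_to (f := Prod.snd) (s := usr σ n l c' a0 A)
      (t := boxP n (univ.image fun t : K =>
        t • a0 + (ext0 n u0.2 1 - tr K (ext0 n u0.2 1) • a0)) (Kc K c')) (fun u hu => by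
        refine (mem_boxP H.hn).mpr ⟨(hI u hu).2.1, ?_, mem_Kc.mpr (hI u hu).2.2⟩
        obtain ⟨t, ht⟩ := H.H_two hb0 (ne_of_tr (hta u.2)) (heq u0 hu0 u hu) hG
        have e1 := congrArg (tr K) ht
        rw [map_smul, tr_aOf ha0, tr_aOf ha0, smul_eq_mul] at e1
        rw [aOf, aOf, smul_smul, ← e1] at ht
        have e2 := add_left_cancel (smul_right_injective E (lamOf_ne u.2) ht)
        refine mem_image.mpr ⟨tr K (ext0 n u.2 1), mem_univ _, ?_⟩
        rw [← e2]
        exact add_sub_cancel _ _)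
      (Fintype.card K ^ n * Fintype.card K ^ n) (fun b _ => by
        rw [← card_image_of_injOn (f := Prod.fst) (fun u hu u' hu' e => Prod.ext e
          ((mem_filter.mp (mem_coe.mp hu)).2.trans (mem_filter.mp (mem_coe.mp hu')).2.symm))]
        refine H.card_D hp0 (inv_ne_zero ((map_ne_zero σ).mpr hx)) _ ?_ ?_
        · intro η hη
          obtain ⟨u, hu, rfl⟩ := mem_image.mp hη
          exact (hI u (mem_filter.mp hu).1).1
        · intro η hη η' hη' y hy
          obtain ⟨u, hu, rfl⟩ := mem_image.mp hη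
          obtain ⟨u', hu', rfl⟩ := mem_image.mp hη'
          obtain ⟨hu, e⟩ := mem_filter.mp hu
          obtain ⟨hu', e'⟩ := mem_filter.mp hu'
          have e2 := heq u hu u' hu'
          rw [show u'.2 = u.2 from e'.trans e.symm] at e2
          have e3 := heq u0 hu0 u hu
          exact H.H_same (ne_of_tr (hta _)) (hr u hu).1 (hr u' hu').1 e2 hp0 (e3 ▸ a3)
            (e3 ▸ a4) (e3 ▸ (a5 y).mpr hy))
    refine h1.trans ?_
    rw [card_boxP H.hn, card_Kc (ne_of_tr hc)]
    have h2 : (univ.image fun t : K =>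
        t • a0 + (ext0 n u0.2 1 - tr K (ext0 n u0.2 1) • a0)).card ≤ Fintype.card K :=
      card_image_le
    refine (Nat.mul_le_mul_left _ (Nat.mul_le_mul_right _ (Nat.mul_le_mul_right _ h2))).trans
      (le_of_eq ?_)
    rw [H.card, hm, add_tsub_cancel_right]
    ring

lemma HB.core_core (H : HB σ n) {c' a0 : E} (hc : tr K c' ≠ 0) (hc' : σ c' ≠ c')
    (ha0 : tr K a0 = 1) {u u' : (Fin (l + 1) → Fin (n + 1) → E) × (Fin (n + 1) → E)}
    (hu : u ∈ Ix K n l c') (hu' : u' ∈ Ix K n l c') {o o' : Option E}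
    (h : coreM (iota σ n u.1)
        ((UT σ o).map (th (ext0 n (u.1 0) n + a0) (lin σ n (ext0 n u.2)))) =
      coreM (iota σ n u'.1)
        ((UT σ o').map (th (ext0 n (u'.1 0) n + a0) (lin σ n (ext0 n u'.2))))) : u = u' := by
  obtain ⟨η, ψ⟩ := u
  obtain ⟨η', ψ'⟩ := u'
  obtain ⟨hA, h0, t1, ht1⟩ := mem_Ix H.hn hu
  obtain ⟨hA', h0', t1', ht1'⟩ := mem_Ix H.hn hu'
  simp only at h hA h0 ht1 hA' h0' ht1'
  have trans : ∀ {η η' : Fin (l + 1) → Fin (n + 1) → E} {ρ ρ' : E} {f f' : E →ₗ[K] E}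
      {o o' : Option E}, coreM (iota σ n η) ((UT σ o).map (th ρ f)) =
        coreM (iota σ n η') ((UT σ o').map (th ρ' f')) → ∀ x y, (x, y) ∈ UT σ o →
      ∃ x', (x', y) ∈ UT σ o' ∧ ρ * (x + f y) = ρ' * (x' + f' y) ∧
        Lar σ n η y = Lar σ n η' y := by
    intro η η' ρ ρ' f f' o o' h x y hxy
    have : (ρ * (x + f y), iota σ n η y) ∈ coreM (iota σ n η') ((UT σ o').map (th ρ' f')) :=
      h ▸ mem_coreM.mpr ⟨y, mem_th.mpr ⟨x, hxy, rfl⟩, rfl⟩
    obtain ⟨y', m, e⟩ := mem_coreM.mp this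
    have e1 : y = y' := congrArg Prod.snd e
    subst e1
    obtain ⟨x', m', e'⟩ := mem_th.mp m
    exact ⟨x', m', e', congrArg Prod.fst e⟩
  have f1 := trans h
  have f2 := trans h.symm
  have gg : ∀ {o o' : Option E}, (∀ x y, (x, y) ∈ UT σ o → ∃ x', (x', y) ∈ UT σ o') →
      IsG σ n o → IsG σ n o' := by
    intro o o' hh ho
    by_contra ho'
    obtain ⟨x, hx, -, -, h5⟩ := H.point ho'
    exact inv_ne_zero ((map_ne_zero σ).mpr hx)
      (tr_nondeg (K := K) fun y => (h5 y).mp (hh _ y ((H.graph ho).mpr rfl)))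
  have trρ : ∀ {η : Fin (l + 1) → Fin (n + 1) → E}, InA K n η →
      tr K (ext0 n (η 0) n + a0) = 1 := fun hη => by rw [map_add, hη.1, ha0, zero_add]
  have hρ : ext0 n (η' 0) n + a0 ≠ 0 := ne_of_tr (K := K) (by rw [trρ hA']; exact one_ne_zero)
  by_cases ho : IsG σ n o
  · have ho' : IsG σ n o' := gg (fun x y m => (f1 x y m).imp fun _ h => h.1) ho
    have e1 : η = η' := by
      funext r
      refine ext0_inj fun j hj => H.coef (fun y => ?_) hj
      obtain ⟨-, -, -, e⟩ := f1 _ y ((H.graph ho).mpr rfl)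
      exact congrFun e r
    subst e1
    have e2 : ∀ j, j ≤ n → bT σ n o j + ext0 n ψ j = bT σ n o' j + ext0 n ψ' j := by
      intro j hj
      refine H.coef (c := fun j => bT σ n o j + ext0 n ψ j)
        (c' := fun j => bT σ n o' j + ext0 n ψ' j) (fun y => ?_) hj
      obtain ⟨x', m, e, -⟩ := f1 _ y ((H.graph ho).mpr rfl)
      rw [(H.graph ho').mp m] at e
      rw [ev_add, ev_add]
      exact mul_left_cancel₀ hρ e
    have e3 := e2 0 (Nat.zero_le _)
    rw [h0, h0', add_zero, add_zero] at e3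
    have e4 := e2 n le_rfl
    obtain ⟨β, hβ⟩ := H.bar o
    obtain ⟨β', hβ'⟩ := H.bar o'
    have e5 : t1 = t1' := by
      by_contra hne
      apply hc'
      have : c' = algebraMap K E ((β' - β) / (t1 - t1')) := by
        have h1 : algebraMap K E t1 - algebraMap K E t1' ≠ 0 :=
          sub_ne_zero.mpr fun h => hne ((algebraMap K E).injective h)
        rw [map_div₀, map_sub, map_sub, eq_div_iff h1, hβ, hβ']
        rw [ht1, ht1', Algebra.smul_def, Algebra.smul_def] at e4
        linear_combination e4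
      rw [this, AlgEquiv.commutes]
    rw [ht1, ht1', e5] at e4
    have e6 : o = o' := bT_inj ho ho' e3 (add_right_cancel e4)
    subst e6
    rw [ext0_inj fun j hj => add_left_cancel (e2 j hj)]
  · have ho' : ¬ IsG σ n o' := fun h' =>
      ho (gg (fun x y m => (f2 x y m).imp fun _ h => h.1) h')
    obtain ⟨x, hx, a1, a2, a3⟩ := H.point ho
    obtain ⟨x', hx', a1', a2', a3'⟩ := H.point ho'
    have hγ : (σ x)⁻¹ ≠ 0 := inv_ne_zero ((map_ne_zero σ).mpr hx)
    obtain ⟨t, ht⟩ := prop_of_hyp (σ := σ) hx hx' fun y hy => by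
      obtain ⟨p, hp⟩ := (a3 y).mpr hy
      obtain ⟨p', hp', -⟩ := f1 p y hp
      exact (a3' y).mp ⟨p', hp'⟩
    have ht0 : t ≠ 0 := fun h => hx (by rw [ht, h, zero_smul])
    obtain ⟨x1, m1, e1, -⟩ := f1 x 0 a1
    obtain ⟨s, hs⟩ := a2' x1 m1
    rw [map_zero, map_zero, add_zero, add_zero, hs, ht, mul_smul_comm, mul_smul_comm,
      ← smul_mul_assoc, ← smul_mul_assoc] at e1
    have e2 := mul_right_cancel₀ hx' e1
    have e3 := congrArg (tr K) e2
    rw [map_smul, map_smul, trρ hA, trρ hA', smul_eq_mul, smul_eq_mul, mul_one, mul_one] at e3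
    rw [← e3] at e2
    have e4 : ext0 n (η 0) n = ext0 n (η' 0) n :=
      add_right_cancel (smul_right_injective E ht0 e2)
    obtain ⟨y0, hy0⟩ := exists_tr_one (K := K) hγ
    have e5 : η = η' := by
      funext r
      refine H.row_eq hγ (u := (Lar σ n η - Lar σ n η') y0 r) (fun y => ?_) ?_
      · exact congrFun (decomp0 (Lar σ n η - Lar σ n η') hy0 (fun y hy => by
          obtain ⟨p, hp⟩ := (a3 y).mpr hy
          obtain ⟨-, -, -, e⟩ := f1 p y hp
          rw [LinearMap.sub_apply, e, sub_self]) y) r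
      · by_cases hr : r = 0
        · rw [hr]; exact e4
        · rw [hA.2 r hr, hA'.2 r hr]
    subst e5
    have e6 : o = o' := (UT_unique (σ := σ) (x := x) (y := 0)
      (fun h => hx (congrArg Prod.fst h))).unique a1 (by
        have := Submodule.smul_mem _ t a1'
        rwa [Prod.smul_mk, smul_zero, ← ht] at this)
    subst e6
    have e7 := fun j hj => H.free (ψ := fun j => ext0 n ψ j - ext0 n ψ' j) (j := j) hc hx
      (by simp only [h0, h0', sub_self]) ⟨t1 - t1', by simp only [ht1, ht1', sub_smul]⟩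
      (fun y hy => by
        obtain ⟨p, hp⟩ := (a3 y).mpr hy
        obtain ⟨p', hp', e, -⟩ := f1 p y hp
        obtain ⟨v, hv⟩ := a2 (p' - p) (by simpa using Submodule.sub_mem _ hp' hp)
        refine ⟨v, ?_⟩
        have := mul_left_cancel₀ hρ e
        rw [lin_apply, lin_apply] at this
        rw [ev_sub, ← hv]
        linear_combination this) hj
    rw [ext0_inj fun j hj => sub_eq_zero.mp (e7 j hj)]

end Pool.Agent.P.MP_3b9ee7_co.NP
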