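import Pool.Agent.P.MP_3b9ee7_co.NP.Fld

set_option autoImplicit false

namespace Pool.Agent.P.MP_3b9ee7_co.NP

open Finset
open scoped Classical

variable {K E : Type} [Field K] [Field E] [Algebra K E]

def piP (σ : E ≃ₐ[K] E) (μ : E) (j : ℕ) : E := ∏ i ∈ range j, (σ ^ i) μ

/-- Parametrisation of the members of the core spread. -/
def jT (σ : E ≃ₐ[K] E) : Option E → (E →ₗ[K] E × E)
  | some μ => (LinearMap.mulLeft K μ).prod
      (LinearMap.id - σ.toLinearMap.comp (LinearMap.mulLeft K μ))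
  | none => LinearMap.id.prod (-σ.toLinearMap)

def UT (σ : E ≃ₐ[K] E) (o : Option E) : Submodule K (E × E) := LinearMap.range (jT σ o)

def IsG (σ : E ≃ₐ[K] E) (n : ℕ) : Option E → Prop
  | some μ => piP σ μ (n + 1) ≠ 1
  | none => True

noncomputable def bT (σ : E ≃ₐ[K] E) (n : ℕ) : Option E → ℕ → E
  | some μ => fun j => piP σ μ (j + 1) / (1 - piP σ μ (n + 1))
  | none => fun j => if j = n then -1 else 0

noncomputable def jj (σ : E ≃ₐ[K] E) (n : ℕ) (o : Option E) : E →ₗ[K] E × E :=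
  if IsG σ n o then ((lin σ n (bT σ n o)).comp σ.toLinearMap).prod σ.toLinearMap else jT σ o

variable {σ : E ≃ₐ[K] E} {n : ℕ}

lemma piP_succ (μ : E) (j : ℕ) : piP σ μ (j + 1) = μ * σ (piP σ μ j) := by
  rw [piP, Finset.prod_range_succ', piP, map_prod, mul_comm]
  simp only [pow_zero, AlgEquiv.one_apply, pow_succ', AlgEquiv.mul_apply]

lemma piP_ne {μ : E} (h : μ ≠ 0) (j : ℕ) : piP σ μ j ≠ 0 :=
  Finset.prod_ne_zero_iff.mpr fun _ _ => (map_ne_zero _).mpr h

lemma mem_UT_some {μ x y : E} :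
    (x, y) ∈ UT σ (some μ) ↔ ∃ l, x = μ * l ∧ y = l - σ (μ * l) := by
  simp only [UT, jT, LinearMap.mem_range, Prod.ext_iff]
  exact exists_congr fun l => ⟨fun h => ⟨h.1.symm, h.2.symm⟩, fun h => ⟨h.1.symm, h.2.symm⟩⟩

lemma mem_UT_none {x y : E} : (x, y) ∈ UT σ none ↔ y = -σ x := by
  simp only [UT, jT, LinearMap.mem_range, Prod.ext_iff]
  constructor
  · rintro ⟨l, h1, h2⟩
    have h1' : l = x := h1
    rw [← h1']
    exact h2.symm
  · intro h
    exact ⟨x, rfl, h.symm⟩

lemma mem_UT_zero {x y : E} : (x, y) ∈ UT σ (some 0) ↔ x = 0 := by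
  rw [mem_UT_some]
  constructor
  · rintro ⟨l, h, -⟩
    rw [h, zero_mul]
  · intro h
    exact ⟨y, by rw [h, zero_mul], by simp⟩

lemma jT_inj (o : Option E) : Function.Injective (jT σ o) := by
  rw [injective_iff_map_eq_zero]
  intro l hl
  rcases o with _ | μ
  · exact congrArg Prod.fst hl
  · have h1 : μ * l = 0 := congrArg Prod.fst hl
    have h2 : l - σ (μ * l) = 0 := congrArg Prod.snd hl
    rwa [h1, map_zero, sub_zero] at h2

lemma UT_unique {x y : E} (h : (x, y) ≠ 0) : ∃! o, (x, y) ∈ UT σ o := by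
  by_cases hb : y + σ x = 0
  · refine ⟨none, mem_UT_none.mpr (by linear_combination hb), ?_⟩
    rintro (_ | μ) ho
    · rfl
    · obtain ⟨l, h1, h2⟩ := mem_UT_some.mp ho
      have hl : l = 0 := by rw [← h1] at h2; linear_combination hb - h2
      exact absurd (by rw [h1, h2, hl]; simp) h
  · refine ⟨some (x / (y + σ x)), mem_UT_some.mpr ⟨y + σ x, by field_simp, ?_⟩, ?_⟩
    · rw [div_mul_cancel₀ _ hb]; ring
    · rintro (_ | μ) ho
      · exact absurd (by rw [mem_UT_none.mp ho]; ring) hb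
      · obtain ⟨l, h1, h2⟩ := mem_UT_some.mp ho
        have hl : l = y + σ x := by rw [← h1] at h2; linear_combination -h2
        congr 1
        rw [eq_div_iff hb, ← hl, h1]

lemma ev_last (c y : E) : ev σ n (fun j => if j = n then c else 0) y = c * (σ ^ n) y := by
  rw [ev, Finset.sum_eq_single n, if_pos rfl]
  · intro j _ hj
    rw [if_neg hj, zero_mul]
  · intro h
    exact absurd (mem_range.mpr (by omega)) h

lemma ev_mul (a : E) (c : ℕ → E) (y : E) : ev σ n (fun j => a * c j) y = a * ev σ n c y := by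
  simp only [ev, Finset.mul_sum, mul_assoc]

lemma ev_add (c c' : ℕ → E) (y : E) :
    ev σ n (fun j => c j + c' j) y = ev σ n c y + ev σ n c' y := by
  simp only [ev, add_mul, Finset.sum_add_distrib]

lemma ev_congr {c c' : ℕ → E} (h : ∀ j, j ≤ n → c j = c' j) (y : E) : ev σ n c y = ev σ n c' y :=
  Finset.sum_congr rfl fun j hj => by rw [h j (by rw [mem_range] at hj; omega)]

lemma ev_zero (y : E) : ev σ n (fun _ => 0) y = 0 := by simp [ev]

variable [Fintype K] [Fintype E]

lemma HB.norm_fix (H : HB σ n) (μ : E) : σ (piP σ μ (n + 1)) = piP σ μ (n + 1) := by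
  by_cases h : μ = 0
  · rw [piP_succ, h, zero_mul, map_zero]
  · apply mul_left_cancel₀ h
    rw [← piP_succ, piP, Finset.prod_range_succ, H.per, mul_comm]
    rfl

lemma HB.tele (H : HB σ n) (μ y : E) :
    ev σ n (fun j => σ (piP σ μ j)) y - σ (μ * ev σ n (fun j => σ (piP σ μ j)) y) =
      (1 - piP σ μ (n + 1)) * y := by
  have h := Finset.sum_range_sub' (fun j => σ (piP σ μ j) * (σ ^ j) y) (n + 1)
  simp only [H.per, H.norm_fix] at h
  have h0 : σ (piP σ μ 0) * (σ ^ 0) y = y := by simp [piP]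
  rw [h0] at h
  rw [sub_mul, one_mul, ← h, ev, Finset.mul_sum, map_sum, ← Finset.sum_sub_distrib]
  refine Finset.sum_congr rfl fun j _ => ?_
  rw [← mul_assoc, ← piP_succ, map_mul, pow_succ', AlgEquiv.mul_apply]

lemma HB.graph (H : HB σ n) {o : Option E} (ho : IsG σ n o) {x y : E} :
    (x, y) ∈ UT σ o ↔ x = ev σ n (bT σ n o) y := by
  rcases o with _ | μ
  · rw [mem_UT_none]
    simp only [bT]
    rw [ev_last]
    constructor
    · intro h
      rw [h, map_neg, H.inv1]; ring
    · intro h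
      rw [h, map_mul, H.inv2]; simp
  · have hN : 1 - piP σ μ (n + 1) ≠ 0 := sub_ne_zero.mpr (Ne.symm ho)
    let lam : E → E := fun y => (1 - piP σ μ (n + 1))⁻¹ * ev σ n (fun j => σ (piP σ μ j)) y
    have h1 : ∀ y, lam y - σ (μ * lam y) = y := by
      intro y
      have := H.tele μ y
      simp only [lam]
      rw [mul_left_comm, map_mul, map_inv₀, map_sub, map_one, H.norm_fix, ← mul_sub, this,
        inv_mul_cancel_left₀ hN]
    have h2 : ∀ y, μ * lam y = ev σ n (bT σ n (some μ)) y := by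
      intro y
      simp only [lam]
      rw [← ev_mul, ← ev_mul]
      refine ev_congr (fun j _ => ?_) y
      simp only [bT]
      rw [piP_succ μ j]
      field_simp
    have h3 : Function.Injective fun l => l - σ (μ * l) :=
      Finite.injective_iff_surjective.mpr fun y => ⟨lam y, h1 y⟩
    rw [mem_UT_some]
    constructor
    · rintro ⟨l, e1, e2⟩
      have : l = lam y := h3 (e2.symm.trans (h1 y).symm)
      rw [e1, this, h2]
    · intro h
      exact ⟨lam y, by rw [h, h2], (h1 y).symm⟩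

lemma HB.point (H : HB σ n) {o : Option E} (ho : ¬ IsG σ n o) :
    ∃ x : E, x ≠ 0 ∧ (x, 0) ∈ UT σ o ∧ (∀ p, (p, 0) ∈ UT σ o → ∃ t : K, p = t • x) ∧
      ∀ y, (∃ p, (p, y) ∈ UT σ o) ↔ tr K ((σ x)⁻¹ * y) = 0 := by
  rcases o with _ | μ
  · exact absurd trivial ho
  · have hN : piP σ μ (n + 1) = 1 := not_not.mp ho
    obtain ⟨y0, hy0⟩ : ∃ y0, ev σ n (fun j => σ (piP σ μ j)) y0 ≠ 0 := by
      by_contra hc
      push Not at hc
      have := H.ind hc (Nat.zero_le _)
      simp [piP] at this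
    have h1 := H.tele μ y0
    rw [hN, sub_self, zero_mul] at h1
    set l0 := ev σ n (fun j => σ (piP σ μ j)) y0
    have h2 : σ (μ * l0) = l0 := (sub_eq_zero.mp h1).symm
    have key : ∀ l, l - σ (μ * l) = l0 * (l / l0 - σ (l / l0)) := by
      intro l
      have : μ * l = μ * l0 * (l / l0) := by field_simp
      rw [this, map_mul, h2]
      field_simp
    refine ⟨μ * l0, fun h => hy0 (by rw [← h2, h, map_zero]),
      mem_UT_some.mpr ⟨l0, rfl, h1.symm⟩, fun p hp => ?_, fun y => ?_⟩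
    · obtain ⟨l, e1, e2⟩ := mem_UT_some.mp hp
      rw [key] at e2
      have := (mul_eq_zero.mp e2.symm).resolve_left hy0
      obtain ⟨t, ht⟩ := H.fix (sub_eq_zero.mp this).symm
      refine ⟨t, ?_⟩
      rw [e1, Algebra.smul_def, ht]
      field_simp
    · rw [h2]
      constructor
      · rintro ⟨p, hp⟩
        obtain ⟨l, -, e2⟩ := mem_UT_some.mp hp
        rw [e2, key, inv_mul_cancel_left₀ hy0, map_sub, tr_sigma, sub_self]
      · intro h
        obtain ⟨s, hs⟩ := H.h90 h
        refine ⟨μ * (l0 * s), mem_UT_some.mpr ⟨l0 * s, rfl, ?_⟩⟩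
        rw [key, mul_div_cancel_left₀ _ hy0, ← hs, mul_inv_cancel_left₀ hy0]

lemma HB.bar (H : HB σ n) (o : Option E) : ∃ β : K, algebraMap K E β = bT σ n o n := by
  apply H.fix
  rcases o with _ | μ
  · simp [bT]
  · simp only [bT]
    rw [map_div₀, map_sub, map_one, H.norm_fix]

omit [Fintype K] [Fintype E] in
lemma bar_ne {o : Option E} (ho : IsG σ n o) (h0 : o ≠ some 0) : bT σ n o n ≠ 0 := by
  rcases o with _ | μ
  · simp [bT]
  · simp only [bT]
    exact div_ne_zero (piP_ne (fun h => h0 (by rw [h])) _) (sub_ne_zero.mpr (Ne.symm ho))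

omit [Fintype K] [Fintype E] in
lemma bT_inj {o o' : Option E} (ho : IsG σ n o) (ho' : IsG σ n o')
    (h0 : bT σ n o 0 = bT σ n o' 0) (h1 : bT σ n o n = bT σ n o' n) : o = o' := by
  have aux : ∀ μ : E, IsG σ n (some μ) → bT σ n (some μ) n ≠ bT σ n none n := by
    intro μ hμ h
    have hN : 1 - piP σ μ (n + 1) ≠ 0 := sub_ne_zero.mpr (Ne.symm hμ)
    simp only [bT, if_true] at h
    rw [div_eq_iff hN] at h
    exact one_ne_zero (α := E) (by linear_combination h)
  rcases o with _ | μ <;> rcases o' with _ | μ'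
  · rfl
  · exact absurd h1.symm (aux _ ho')
  · exact absurd h1 (aux _ ho)
  · have hN : 1 - piP σ μ (n + 1) ≠ 0 := sub_ne_zero.mpr (Ne.symm ho)
    have hN' : 1 - piP σ μ' (n + 1) ≠ 0 := sub_ne_zero.mpr (Ne.symm ho')
    simp only [bT] at h0 h1
    rw [div_eq_div_iff hN hN'] at h1
    have e : piP σ μ (n + 1) = piP σ μ' (n + 1) := by linear_combination h1
    rw [e, div_left_inj' hN'] at h0
    simp only [piP, zero_add, Finset.prod_range_one, pow_zero, AlgEquiv.one_apply] at h0
    rw [h0]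

omit [Fintype K] [Fintype E] in
lemma jj_G {o : Option E} (ho : IsG σ n o) (z : E) :
    jj σ n o z = (ev σ n (bT σ n o) (σ z), σ z) := by
  rw [jj, if_pos ho]; rfl

omit [Fintype K] [Fintype E] in
lemma jj_inj (o : Option E) : Function.Injective (jj σ n o) := by
  by_cases ho : IsG σ n o
  · intro z z' h
    rw [jj_G ho, jj_G ho] at h
    exact σ.injective (congrArg Prod.snd h)
  · rw [jj, if_neg ho]
    exact jT_inj o

lemma HB.mem_jj (H : HB σ n) {o : Option E} {v : E × E} :
    v ∈ UT σ o ↔ ∃ z, jj σ n o z = v := by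
  by_cases ho : IsG σ n o
  · obtain ⟨x, y⟩ := v
    rw [H.graph ho]
    constructor
    · intro h
      exact ⟨(σ ^ n) y, by rw [jj_G ho, H.inv2, h]⟩
    · rintro ⟨z, hz⟩
      rw [jj_G ho, Prod.mk.injEq] at hz
      rw [← hz.1, hz.2]
  · rw [jj, if_neg ho]
    rfl

end Pool.Agent.P.MP_3b9ee7_co.NP
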