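import Pool.Agent.P.MP_3b9ee7_co.NP.Alg

set_option autoImplicit false

namespace Pool.Agent.P.MP_3b9ee7_co.NP

open Finset
open scoped Classical

variable {K L : Type} [Field K] [Field L] [Algebra K L]

lemma card_fix [Fintype L] {q N d : ℕ} (hq : 2 ≤ q) (hL : Fintype.card L = q ^ N) (hd : d ∣ N)
    (hd0 : 0 < d) : (univ.filter fun x : L => x ^ (q ^ d) = x).card = q ^ d := by
  have h1 : 1 < q ^ d := Nat.one_lt_pow hd0.ne' (by omega)
  have hk := IsCyclic.card_powMonoidHom_ker Lˣ (q ^ d - 1)
  have hdvd : q ^ d - 1 ∣ Nat.card Lˣ := by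
    rw [Nat.card_units, Nat.card_eq_fintype_card, hL]
    obtain ⟨m, rfl⟩ := hd
    rw [pow_mul]
    simpa using Nat.sub_dvd_pow_sub_pow (q ^ d) 1 m
  rw [Nat.gcd_eq_right hdvd] at hk
  have e : (univ.filter fun x : L => x ^ (q ^ d) = x) =
      insert 0 ((univ.filter fun y : Lˣ => y ^ (q ^ d - 1) = 1).image Units.val) := by
    ext x
    simp only [mem_filter, mem_univ, true_and, mem_insert, mem_image]
    have e2 : q ^ d = (q ^ d - 1) + 1 := by omega
    constructor
    · intro h
      by_cases hx : x = 0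
      · exact Or.inl hx
      · refine Or.inr ⟨Units.mk0 x hx, ?_, rfl⟩
        ext
        rw [e2, pow_succ] at h
        simpa using mul_right_cancel₀ hx (h.trans (one_mul x).symm)
    · rintro (rfl | ⟨y, hy, rfl⟩)
      · exact zero_pow (by omega)
      · rw [e2, pow_succ, ← Units.val_pow_eq_pow_val, hy]
        simp
  rw [e, card_insert_of_notMem (by simp), card_image_of_injective _ Units.val_injective]
  have : (univ.filter fun y : Lˣ => y ^ (q ^ d - 1) = 1).card = q ^ d - 1 := by
    refine Eq.trans ?_ hk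
    rw [Nat.card_eq_fintype_card, Fintype.card_subtype]
    congr 1
    ext y
    simp [MonoidHom.mem_ker]
  omega

/-- The standing hypotheses. -/
structure Hyp [Fintype L] (σ : L ≃ₐ[K] L) (s q : ℕ) : Prop where
  hq : 2 ≤ q
  hσ : ∀ n x, (σ ^ n) x = x ^ (q ^ n)
  hL : Fintype.card L = q ^ (2 * (2 * s + 1))

variable [Fintype L] {σ : L ≃ₐ[K] L} {s q : ℕ}

lemma Hyp.card_E (H : Hyp σ s q) : (univ.filter fun x : L => InE σ s x).card = q ^ (2 * s + 1) := by
  rw [← card_fix H.hq H.hL (d := 2 * s + 1) ⟨2, by ring⟩ (by omega)]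
  congr 1
  ext x
  simp only [mem_filter, mem_univ, true_and, InE, H.hσ]

lemma Hyp.card_two (H : Hyp σ s q) : (univ.filter fun x : L => (σ ^ 2) x = x).card = q ^ 2 := by
  rw [← card_fix H.hq H.hL (d := 2) ⟨2 * s + 1, by ring⟩ (by omega)]
  congr 1
  ext x
  simp only [mem_filter, mem_univ, true_and, H.hσ]

lemma Hyp.card_one (H : Hyp σ s q) : (univ.filter fun x : L => (σ ^ 1) x = x).card = q := by
  have := card_fix H.hq H.hL (d := 1) (one_dvd _) (by omega)
  rw [pow_one q] at this
  rw [← this]
  congr 1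
  ext x
  simp only [mem_filter, mem_univ, true_and, H.hσ, pow_one q]

lemma Hyp.ind (H : Hyp σ s q) : Ind σ s := by
  intro γ hγ n hn
  let P : Polynomial L := ∑ m ∈ range (2 * s + 1), Polynomial.monomial (q ^ m) (γ m)
  have hP : P = 0 := by
    apply Polynomial.eq_zero_of_natDegree_lt_card_of_eval_eq_zero' P
      (univ.filter fun x : L => InE σ s x)
    · intro x hx
      rw [← hγ x (mem_filter.mp hx).2]
      simp only [P, Polynomial.eval_finsetSum, Polynomial.eval_monomial, H.hσ]
    · rw [H.card_E]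
      have : P.natDegree ≤ q ^ (2 * s) := by
        refine Polynomial.natDegree_sum_le_of_forall_le _ _ fun m hm => ?_
        refine (Polynomial.natDegree_monomial_le _).trans ?_
        exact Nat.pow_le_pow_right (by have := H.hq; omega) (by rw [mem_range] at hm; omega)
      exact this.trans_lt (Nat.pow_lt_pow_right (by have := H.hq; omega) (by omega))
  have h := congrArg (fun R => R.coeff (q ^ n)) hP
  simp only [P, Polynomial.finsetSum_coeff, Polynomial.coeff_monomial, Polynomial.coeff_zero] at h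
  rw [Finset.sum_eq_single n, if_pos rfl] at h
  · exact h
  · intro m _ hm
    rw [if_neg]
    intro e
    exact hm (Nat.pow_right_injective H.hq e)
  · intro h'
    exact absurd (mem_range.mpr hn) h'

/-- Extension by zero. -/
def ext0 (s : ℕ) (w : Fin (s + 1) → L) (n : ℕ) : L := if h : n < s + 1 then w ⟨n, h⟩ else 0

omit [Fintype L] in
lemma ext0_of_lt (w : Fin (s + 1) → L) {n : ℕ} (h : s < n) : ext0 s w n = 0 :=
  dif_neg (by omega)

omit [Fintype L] in
lemma ext0_fin (w : Fin (s + 1) → L) (n : Fin (s + 1)) : ext0 s w n.1 = w n := dif_pos n.2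

omit [Fintype L] in
lemma ext0_res (f : ℕ → L) {n : ℕ} (h : n ≤ s) : ext0 s (fun i => f i.1) n = f n :=
  dif_pos (by omega)

lemma card_filter_le_fin (s j : ℕ) (h : j ≤ s + 1) :
    (univ.filter fun i : Fin (s + 1) => i.1 < j).card = j := by
  rw [Fin.card_filter_val_lt]
  omega

noncomputable def boxF (L : Type) [Field L] [Fintype L] (s j : ℕ) : Finset (Fin (s + 1) → L) :=
  Fintype.piFinset fun i => if i.1 < j then univ else {0}

noncomputable def boxH (σ : L ≃ₐ[K] L) (s j : ℕ) : Finset (Fin (s + 1) → L) :=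
  Fintype.piFinset fun i =>
    if i.1 < j then univ.filter fun x : L => InE σ s x else if i.1 = j then {1} else {0}

lemma card_boxF (j : ℕ) (h : j ≤ s + 1) : (boxF L s j).card = Fintype.card L ^ j := by
  rw [boxF, Fintype.card_piFinset]
  have : ∀ i : Fin (s + 1), (if i.1 < j then (univ : Finset L) else {0}).card =
      if i.1 < j then Fintype.card L else 1 := by
    intro i; split_ifs <;> simp
  simp only [this]
  rw [Finset.prod_ite, Finset.prod_const_one, mul_one, Finset.prod_const, card_filter_le_fin s j h]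

lemma Hyp.card_boxH (H : Hyp σ s q) (j : ℕ) (h : j ≤ s + 1) :
    (boxH σ s j).card = (q ^ (2 * s + 1)) ^ j := by
  rw [boxH, Fintype.card_piFinset]
  have : ∀ i : Fin (s + 1), (if i.1 < j then univ.filter fun x : L => InE σ s x
      else if i.1 = j then ({1} : Finset L) else {0}).card =
      if i.1 < j then q ^ (2 * s + 1) else 1 := by
    intro i
    split_ifs
    · exact H.card_E
    · simp
    · simp
  simp only [this]
  rw [Finset.prod_ite, Finset.prod_const_one, mul_one, Finset.prod_const, card_filter_le_fin s j h]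

noncomputable def setB (σ : L ≃ₐ[K] L) (s : ℕ) : Finset (Fin (s + 1) → L) :=
  univ.filter fun w => InB σ s (ext0 s w)

noncomputable def prodB (σ : L ≃ₐ[K] L) (s j : ℕ) : Finset (Fin (s + 1) → L) :=
  (boxF L s (s - j + 1) ×ˢ boxH σ s j).image
    fun p => fun n : Fin (s + 1) => star σ s (ext0 s p.1) (ext0 s p.2) n.1

lemma setB_subset : setB σ s ⊆ boxF L s s ∪ (Finset.Icc 1 s).biUnion (prodB σ s) := by
  intro w hw
  have hB := (mem_filter.mp hw).2
  have box0 : ext0 s w s = 0 → w ∈ boxF L s s := by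
    intro h
    rw [boxF, Fintype.mem_piFinset]
    intro i
    split_ifs with hi
    · exact mem_univ _
    · have : i.1 = s := by have := i.2; omega
      rw [mem_singleton, ← ext0_fin w i, this, h]
  rcases hB with h | ⟨j, hj1, hjs, f, h, hf, hE, hh, hu⟩
  · exact mem_union_left _ (box0 h)
  · by_cases hj0 : h j = 0
    · refine mem_union_left _ (box0 ?_)
      rw [hu s le_rfl, star]
      refine Finset.sum_eq_zero fun a ha => ?_
      rcases lt_trichotomy a j with h1 | h1 | h1
      · rw [mono, if_pos (by omega), hf _ (by omega), zero_mul]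
      · rw [h1, hj0, mono_zero]
      · rw [hh a h1, mono_zero]
    · refine mem_union_right _ (mem_biUnion.mpr ⟨j, mem_Icc.mpr ⟨hj1, hjs⟩, ?_⟩)
      refine mem_image.mpr ⟨(fun i => f i.1 * (σ ^ i.1) (h j), fun a => (h j)⁻¹ * h a.1), ?_, ?_⟩
      · refine mem_product.mpr ⟨?_, ?_⟩
        · rw [boxF, Fintype.mem_piFinset]
          intro i
          split_ifs with hi
          · exact mem_univ _
          · simp only [mem_singleton]
            rw [hf _ (by omega), zero_mul]
        · rw [boxH, Fintype.mem_piFinset]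
          intro a
          split_ifs with h1 h2
          · exact mem_filter.mpr ⟨mem_univ _, (hE j).inv.mul (hE _)⟩
          · simp only [mem_singleton]
            rw [h2, inv_mul_cancel₀ hj0]
          · simp only [mem_singleton]
            rw [hh a.1 (by omega), mul_zero]
      · funext n
        have hn : n.1 ≤ s := by have := n.2; omega
        rw [← ext0_fin w n, hu _ hn]
        simp only [star]
        refine Finset.sum_congr rfl fun a ha => ?_
        rw [mem_range] at ha
        simp only [mono]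
        split_ifs with h1
        · rw [ext0_res (fun i => f i * (σ ^ i) (h j)) (by omega),
            ext0_res (fun a => (h j)⁻¹ * h a) (by omega), mul_assoc, ← map_mul,
            mul_inv_cancel_left₀ hj0]
        · rfl

lemma Hyp.card_setB (H : Hyp σ s q) (hs : 1 ≤ s) :
    (setB σ s).card ≤ (q ^ (2 * s + 1)) ^ (2 * s) * (q ^ (2 * s + 1) + s) := by
  set Q := q ^ (2 * s + 1) with hQ
  have hQ1 : 1 ≤ Q := Nat.one_le_pow _ _ (by have := H.hq; omega)
  have hL : Fintype.card L = Q ^ 2 := by rw [H.hL, hQ, ← pow_mul, mul_comm]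
  have hp : ∀ j, j ≤ s → (prodB σ s j).card ≤ Q ^ (2 * s + 2 - j) := by
    intro j hj
    refine card_image_le.trans ?_
    rw [card_product, card_boxF _ (by omega), H.card_boxH _ (by omega), hL, ← hQ, ← pow_mul,
      ← pow_add]
    exact le_of_eq (by congr 1; omega)
  refine (card_le_card setB_subset).trans ((card_union_le _ _).trans ?_)
  rw [card_boxF _ (by omega), hL, ← pow_mul]
  have h2 : ((Finset.Icc 1 s).biUnion (prodB σ s)).card ≤
      Q ^ (2 * s + 1) + (s - 1) * Q ^ (2 * s) := by
    refine card_biUnion_le.trans ?_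
    have e : Finset.Icc 1 s = insert 1 (Finset.Icc 2 s) := by
      ext x; simp only [mem_Icc, mem_insert]; omega
    rw [e, Finset.sum_insert (by simp)]
    refine Nat.add_le_add (by simpa using hp 1 hs) ?_
    refine (Finset.sum_le_card_nsmul _ _ (Q ^ (2 * s)) fun j hj => ?_).trans ?_
    · rw [mem_Icc] at hj
      exact (hp j hj.2).trans (Nat.pow_le_pow_right hQ1 (by omega))
    · simp
  obtain ⟨r, rfl⟩ : ∃ r, s = r + 1 := ⟨s - 1, by omega⟩
  simp only [add_tsub_cancel_right] at h2
  refine (Nat.add_le_add_left h2 _).trans (le_of_eq ?_)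
  ring

/-- The twisted action of the big field on coefficient vectors. -/
def act (σ : L ≃ₐ[K] L) (s : ℕ) (w : Fin (s + 1) → L) (c : L) : Fin (s + 1) → L :=
  fun i => w i * (σ ^ ((2 * s + 2) * i.1)) c

omit [Fintype L] in
lemma act_act (w : Fin (s + 1) → L) (c d : L) : act σ s (act σ s w c) d = act σ s w (c * d) := by
  funext i
  simp only [act, map_mul, mul_assoc]

omit [Fintype L] in
lemma act_one (w : Fin (s + 1) → L) : act σ s w 1 = w := by
  funext i
  simp only [act, map_one, mul_one]

omit [Fintype L] in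
lemma pow_fix {m : ℕ} {x : L} (hx : (σ ^ m) x = x) (i : ℕ) : (σ ^ (m * i)) x = x := by
  induction i with
  | zero => simp
  | succ i ih => rw [Nat.mul_succ, ← pp, hx, ih]

omit [Fintype L] in
lemma tw_E {x : L} (hx : InE σ s x) (i : ℕ) : (σ ^ ((2 * s + 2) * i)) x = (σ ^ i) x := by
  have : (2 * s + 2) * i = i + (2 * s + 1) * i := by ring
  rw [this, ← pp, pow_fix hx]

omit [Fintype L] in
lemma tw_two {x : L} (hx : (σ ^ 2) x = x) (i : ℕ) : (σ ^ ((2 * s + 2) * i)) x = x := by
  have : (2 * s + 2) * i = 2 * ((s + 1) * i) := by ring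
  rw [this, pow_fix hx]

omit [Fintype L] in
lemma ext0_act_E (w : Fin (s + 1) → L) {e : L} (he : InE σ s e) (n : ℕ) :
    ext0 s (act σ s w e) n = ext0 s w n * (σ ^ n) e := by
  unfold ext0
  split_ifs
  · simp only [act, tw_E he]
  · simp

omit [Fintype L] in
lemma ext0_act_two (w : Fin (s + 1) → L) {z : L} (hz : (σ ^ 2) z = z) (n : ℕ) :
    ext0 s (act σ s w z) n = z * ext0 s w n := by
  unfold ext0
  split_ifs
  · simp only [act, tw_two hz]
    exact mul_comm _ _
  · simp

omit [Fintype L] in
lemma inB_act_E {w : Fin (s + 1) → L} (hw : InB σ s (ext0 s w)) {e : L} (he : InE σ s e) :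
    InB σ s (ext0 s (act σ s w e)) := by
  rcases hw with h | ⟨j, hj1, hjs, f, h, hf, hE, hh, hu⟩
  · exact Or.inl (by rw [ext0_act_E w he, h, zero_mul])
  · refine Or.inr ⟨j, hj1, hjs, f, fun a => h a * (σ ^ a) e, hf, fun a => (hE a).mul (he.pow a),
      fun a ha => by simp only; rw [hh a ha, zero_mul], fun n hn => ?_⟩
    rw [ext0_act_E w he, hu n hn, star, star, Finset.sum_mul]
    refine Finset.sum_congr rfl fun a _ => ?_
    simp only [mono]
    split_ifs with h1
    · rw [map_mul, pp, Nat.sub_add_cancel h1, mul_assoc]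
    · simp

omit [Fintype L] in
lemma inB_act_two {w : Fin (s + 1) → L} (hw : InB σ s (ext0 s w)) {z : L} (hz : (σ ^ 2) z = z) :
    InB σ s (ext0 s (act σ s w z)) := by
  rcases hw with h | ⟨j, hj1, hjs, f, h, hf, hE, hh, hu⟩
  · exact Or.inl (by rw [ext0_act_two w hz, h, mul_zero])
  · refine Or.inr ⟨j, hj1, hjs, fun i => z * f i, h, fun i hi => by simp only; rw [hf i hi, mul_zero],
      hE, hh, fun n hn => ?_⟩
    rw [ext0_act_two w hz, hu n hn, star, star, Finset.mul_sum]
    refine Finset.sum_congr rfl fun a _ => ?_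
    simp only [mono]
    split_ifs with h1
    · rw [mul_assoc]
    · simp

/-- Good coefficient vectors. -/
def Good (σ : L ≃ₐ[K] L) (s : ℕ) (w : Fin (s + 1) → L) : Prop :=
  ∀ c, c ≠ 0 → ¬ InB σ s (ext0 s (act σ s w c))

lemma card_ne_zero_filter (p : L → Prop) (h0 : p 0) :
    (univ.filter fun x : L => x ≠ 0 ∧ p x).card = (univ.filter p).card - 1 := by
  rw [← card_erase_of_mem (a := (0 : L)) (mem_filter.mpr ⟨mem_univ _, h0⟩)]
  congr 1
  ext x
  simp

lemma Hyp.fibre (H : Hyp σ s q) {w : Fin (s + 1) → L} (hw : ¬ Good σ s w) :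
    (q ^ 2 - 1) * (q ^ (2 * s + 1) - 1) ≤
      (q - 1) * (univ.filter fun c : L => c ≠ 0 ∧ InB σ s (ext0 s (act σ s w c))).card := by
  unfold Good at hw
  push Not at hw
  obtain ⟨c, hc, hB⟩ := hw
  rw [← H.card_two, ← H.card_E, ← card_ne_zero_filter _ (by simp),
    ← card_ne_zero_filter _ InE.zero, ← card_product]
  refine card_le_mul_card_image_of_maps_to (f := fun p : L × L => c * p.1 * p.2) ?_ _ ?_
  · intro p hp
    obtain ⟨h1, h2⟩ := mem_product.mp hp
    obtain ⟨-, h1, h1'⟩ := mem_filter.mp h1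
    obtain ⟨-, h2, h2'⟩ := mem_filter.mp h2
    refine mem_filter.mpr ⟨mem_univ _, mul_ne_zero (mul_ne_zero hc h1) h2, ?_⟩
    rw [← act_act, ← act_act]
    exact inB_act_E (inB_act_two hB h1') h2'
  · intro b _
    rcases Finset.eq_empty_or_nonempty (((univ.filter fun x : L => x ≠ 0 ∧ (σ ^ 2) x = x) ×ˢ
      (univ.filter fun x : L => x ≠ 0 ∧ InE σ s x)).filter
        fun p : L × L => c * p.1 * p.2 = b) with h | ⟨p0, hp0⟩
    · rw [h]; simp
    · conv_rhs => rw [← H.card_one, ← card_ne_zero_filter _ (by simp)]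
      obtain ⟨hp0, e0⟩ := mem_filter.mp hp0
      obtain ⟨a1, a2⟩ := mem_product.mp hp0
      obtain ⟨-, a1, a1'⟩ := mem_filter.mp a1
      obtain ⟨-, a2, a2'⟩ := mem_filter.mp a2
      refine card_le_card_of_injOn (fun p => p.1 / p0.1) ?_ ?_
      · intro p hp
        obtain ⟨hp, e⟩ := mem_filter.mp (mem_coe.mp hp)
        obtain ⟨h1, h2⟩ := mem_product.mp hp
        obtain ⟨-, h1, h1'⟩ := mem_filter.mp h1
        obtain ⟨-, h2, h2'⟩ := mem_filter.mp h2
        refine mem_coe.mpr (mem_filter.mpr ⟨mem_univ _, div_ne_zero h1 a1, ?_⟩)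
        have e1 : p.1 / p0.1 = p0.2 * (p.2)⁻¹ := by
          have := e.trans e0.symm
          field_simp
          apply mul_left_cancel₀ hc
          linear_combination this
        have hz : (σ ^ 2) (p.1 / p0.1) = p.1 / p0.1 := by rw [map_div₀, h1', a1']
        have hE : InE σ s (p.1 / p0.1) := by rw [e1]; exact a2'.mul h2'.inv
        have := tw_E hE 1
        rw [tw_two hz] at this
        exact this.symm
      · intro p hp p' hp' e
        obtain ⟨hp, e1⟩ := mem_filter.mp (mem_coe.mp hp)
        obtain ⟨hp', e2⟩ := mem_filter.mp (mem_coe.mp hp')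
        have h1 := (mem_filter.mp (mem_product.mp hp).1).2.1
        have e3 : p.1 = p'.1 := by
          simp only at e
          field_simp at e
          exact e
        refine Prod.ext e3 ?_
        have := e1.trans e2.symm
        rw [← e3] at this
        exact mul_left_cancel₀ (mul_ne_zero hc h1) this

lemma Hyp.card_bad (H : Hyp σ s q) :
    (univ.filter fun w : Fin (s + 1) → L => ¬ Good σ s w).card *
        ((q ^ 2 - 1) * (q ^ (2 * s + 1) - 1)) ≤
      (q - 1) * ((Fintype.card L - 1) * (setB σ s).card) := by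
  have h1 : ∀ c : L, c ≠ 0 → (univ.filter fun w : Fin (s + 1) → L =>
      InB σ s (ext0 s (act σ s w c))).card ≤ (setB σ s).card := by
    intro c hc
    refine card_le_card_of_injOn (fun w => act σ s w c) ?_ ?_
    · intro w hw
      exact mem_coe.mpr (mem_filter.mpr ⟨mem_univ _, (mem_filter.mp (mem_coe.mp hw)).2⟩)
    · intro w _ w' _ e
      have := congrArg (fun x => act σ s x c⁻¹) e
      simpa only [act_act, mul_inv_cancel₀ hc, act_one] using this
  have h2 : ∑ w : Fin (s + 1) → L,
      (univ.filter fun c : L => c ≠ 0 ∧ InB σ s (ext0 s (act σ s w c))).card ≤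
      (Fintype.card L - 1) * (setB σ s).card := by
    simp only [card_filter]
    rw [Finset.sum_comm, ← Finset.add_sum_erase _ _ (mem_univ (0 : L))]
    simp only [ne_eq, not_true_eq_false, false_and, if_false, Finset.sum_const_zero, zero_add]
    refine (Finset.sum_le_card_nsmul _ _ (setB σ s).card fun c hc => ?_).trans ?_
    · have hc0 := (mem_erase.mp hc).1
      refine le_trans (le_of_eq ?_) (h1 c hc0)
      rw [card_filter]
      exact Finset.sum_congr rfl fun w _ => by simp [hc0]
    · simp [card_erase_of_mem]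
  calc _ = ∑ _w ∈ univ.filter fun w : Fin (s + 1) → L => ¬ Good σ s w,
        (q ^ 2 - 1) * (q ^ (2 * s + 1) - 1) := by simp
    _ ≤ ∑ w ∈ univ.filter fun w : Fin (s + 1) → L => ¬ Good σ s w, (q - 1) *
        (univ.filter fun c : L => c ≠ 0 ∧ InB σ s (ext0 s (act σ s w c))).card :=
        Finset.sum_le_sum fun w hw => H.fibre (mem_filter.mp hw).2
    _ ≤ ∑ w : Fin (s + 1) → L, (q - 1) *
        (univ.filter fun c : L => c ≠ 0 ∧ InB σ s (ext0 s (act σ s w c))).card :=
        Finset.sum_le_sum_of_subset (filter_subset _ _)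
    _ ≤ _ := by
        rw [← Finset.mul_sum]
        exact Nat.mul_le_mul_left _ h2

end Pool.Agent.P.MP_3b9ee7_co.NP
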