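import Pool.Agent.P.MP_3b9ee7_co.NP.Big

set_option autoImplicit false

namespace Pool.Agent.P.MP_3b9ee7_co.NP

open Finset
open scoped Classical

variable {K E : Type} [Field K] [Field E] [Algebra K E]

noncomputable def par (E : Type) [Field E] [Algebra K E] {W : Type} [AddCommGroup W] [Module K W]
    (A : Submodule K W) : E →ₗ[K] W :=
  if h : ∃ j : E →ₗ[K] W, Function.Injective j ∧ LinearMap.range j = A then h.choose else 0

lemma par_spec {W : Type} [AddCommGroup W] [Module K W] {A : Submodule K W}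
    (h : ∃ j : E →ₗ[K] W, Function.Injective j ∧ LinearMap.range j = A) :
    Function.Injective (par E A) ∧ LinearMap.range (par E A) = A := by
  rw [par, dif_pos h]
  exact h.choose_spec

noncomputable def SigT (σ : E ≃ₐ[K] E) (n l : ℕ) (η : Fin l → Fin (n + 1) → E) (a : E) :
    Set (Submodule K ((Fin l → E) × E)) :=
  (fun U : Submodule K ((Fin l → E) × E) => U.map (tau (Lar σ n η))) '' Sig σ n l a

noncomputable def cls (σ : E ≃ₐ[K] E) (n l : ℕ) (a0 : E)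
    (Φ : Submodule K ((Fin (l + 1) → E) × E) →
      (Fin (l + 1) → Fin (n + 1) → E) × (Fin (n + 1) → E) → Fin n → E)
    (u : (Fin (l + 1) → Fin (n + 1) → E) × (Fin (n + 1) → E)) :
    Set (Submodule K (E × ((Fin (l + 1) → E) × E))) :=
  liftS (SigT σ n (l + 1) u.1 (aOf K n a0 u.2)) (iota σ n u.1)
    ((fun U : Submodule K (E × E) =>
      U.map (th (ext0 n (u.1 0) n + a0) (lin σ n (ext0 n u.2)))) '' Set.range (UT σ))
    (par E) (fun A => lin σ n (ext0 n (Fin.cons 0 (Φ A u))))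

variable {σ : E ≃ₐ[K] E} {n l : ℕ}

lemma range_iota (η : Fin l → Fin (n + 1) → E) : LinearMap.range (iota σ n η) =
    (LinearMap.range (LinearMap.inr K (Fin l → E) E)).map (tau (Lar σ n η)) := by
  ext ⟨p, y⟩
  rw [mem_iota, mem_tau]
  constructor
  · rintro rfl
    exact ⟨0, ⟨y, rfl⟩, (zero_add _).symm⟩
  · rintro ⟨p0, ⟨z, hz⟩, rfl⟩
    have : (0 : Fin l → E) = p0 := congrArg Prod.fst hz
    rw [← this, zero_add]

lemma iota_inj (η : Fin l → Fin (n + 1) → E) : Function.Injective (iota σ n η) :=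
  fun _ _ e => (congrArg Prod.snd e :)

lemma ev_cons (r : Fin n → E) (c z : E) :
    ev σ n (ext0 n (Fin.cons 0 r)) z + c * z = ev σ n (ext0 n (Fin.cons c r)) z := by
  simp only [ev, Finset.sum_range, ext0_fin, Fin.sum_univ_succ, Fin.cons_zero, Fin.cons_succ,
    Fin.val_zero, pow_zero, AlgEquiv.one_apply, zero_mul, zero_add]
  ring

variable [Fintype K] [Fintype E]

lemma HB.PS_SigT (H : HB σ n) (η : Fin l → Fin (n + 1) → E) {a : E} (ha : a ≠ 0) :
    PS E (SigT σ n l η a) := (H.PS_Sig l ha).map' (tau_bij _)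

lemma HB.PS_cls (H : HB σ n) {c' a0 : E} (ha0 : tr K a0 = 1)
    (Φ : Submodule K ((Fin (l + 1) → E) × E) →
      (Fin (l + 1) → Fin (n + 1) → E) × (Fin (n + 1) → E) → Fin n → E)
    {u : (Fin (l + 1) → Fin (n + 1) → E) × (Fin (n + 1) → E)} (hu : u ∈ Ix K n l c') :
    PS E (cls σ n l a0 Φ u) := by
  obtain ⟨hA, -⟩ := mem_Ix H.hn hu
  have hS := H.PS_SigT u.1 (ne_of_tr (tr_aOf_ne ha0 u.2))
  refine hS.lift (iota_inj _) ⟨_, Or.inl rfl, (range_iota _).symm⟩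
    ((PS_core σ).map' (th_bij (ne_of_tr (K := K) ?_) _)) (fun A hA => par_spec (hS.1 A hA)) _
  rw [map_add, hA.1, ha0, zero_add]
  exact one_ne_zero

omit [Fintype K] [Fintype E] in
lemma mem_of_SigT {η : Fin l → Fin (n + 1) → E} {a : E} {A : Submodule K ((Fin l → E) × E)}
    (h : A ∈ SigT σ n l η a) (h' : A ≠ LinearMap.range (iota σ n η)) :
    ∃ (i : Fin l) (o : Option E) (c : Fin l → E), o ≠ some 0 ∧ A = Mem σ n η a i o c := by
  obtain ⟨U, rfl | ⟨i, o, c, ho, rfl⟩, rfl⟩ := h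
  · exact absurd (range_iota η).symm h'
  · exact ⟨i, o, c, ho, rfl⟩

lemma HB.lift_core (H : HB σ n) {c' a0 : E} (ha0 : tr K a0 = 1)
    {u u' : (Fin (l + 1) → Fin (n + 1) → E) × (Fin (n + 1) → E)}
    (hu : u ∈ Ix K n l c') (hu' : u' ∈ Ix K n l c') {A : Submodule K ((Fin (l + 1) → E) × E)}
    (hA : A ∈ SigT σ n (l + 1) u.1 (aOf K n a0 u.2)) (hne : A ≠ LinearMap.range (iota σ n u.1))
    (φ : E →ₗ[K] E) (c : E) (U : Submodule K (E × E)) :
    liftM φ (par E A) c ≠ coreM (iota σ n u'.1) U := by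
  intro h
  obtain ⟨hA1, -⟩ := mem_Ix H.hn hu
  have ha := tr_aOf_ne ha0 u.2
  obtain ⟨hA2, -⟩ := mem_Ix H.hn hu'
  obtain ⟨hj, hr⟩ := par_spec ((H.PS_SigT u.1 (ne_of_tr ha)).1 A hA)
  have h1 : A ≤ LinearMap.range (iota σ n u'.1) := by
    rw [← hr]
    rintro _ ⟨z, rfl⟩
    obtain ⟨y, -, e⟩ := mem_coreM.mp (h ▸ mem_liftM.mpr ⟨z, rfl, rfl⟩ :
      (φ z + c * z, par E A z) ∈ coreM (iota σ n u'.1) U)
    exact ⟨y, e.symm⟩
  have h2 : A = LinearMap.range (iota σ n u'.1) :=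
    Submodule.eq_of_le_of_finrank_eq h1 (by
      rw [LinearMap.finrank_range_of_inj (iota_inj _), ← hr, LinearMap.finrank_range_of_inj hj])
  obtain ⟨i, o, c, ho, e⟩ := mem_of_SigT hA hne
  exact H.not_special hA1 hA2 ha i ho c (e.symm.trans h2)

lemma HB.disj (H : HB σ n) {c' a0 : E} (hc : tr K c' ≠ 0) (hc' : σ c' ≠ c') (ha0 : tr K a0 = 1)
    {Φ : Submodule K ((Fin (l + 1) → E) × E) →
      (Fin (l + 1) → Fin (n + 1) → E) × (Fin (n + 1) → E) → Fin n → E}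
    (hΦ : ∀ A, Set.InjOn (Φ A) (usr σ n l c' a0 A))
    {u u' : (Fin (l + 1) → Fin (n + 1) → E) × (Fin (n + 1) → E)}
    (hu : u ∈ Ix K n l c') (hu' : u' ∈ Ix K n l c')
    {X : Submodule K (E × ((Fin (l + 1) → E) × E))}
    (h : X ∈ cls σ n l a0 Φ u) (h' : X ∈ cls σ n l a0 Φ u') : u = u' := by
  rcases h with ⟨_, ⟨_, ⟨o, rfl⟩, rfl⟩, e⟩ | ⟨A, hA, hne, c, e⟩ <;>
    rcases h' with ⟨_, ⟨_, ⟨o', rfl⟩, rfl⟩, e'⟩ | ⟨A', hA', hne', d, e'⟩
  · exact H.core_core hc hc' ha0 hu hu' (e.symm.trans e')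
  · exact absurd (e'.symm.trans e) (H.lift_core ha0 hu' hu hA' hne' _ _ _)
  · exact absurd (e.symm.trans e') (H.lift_core ha0 hu hu' hA hne _ _ _)
  · have e1 := e.symm.trans e'
    obtain ⟨hj, hr⟩ := par_spec ((H.PS_SigT u.1 (ne_of_tr (tr_aOf_ne ha0 u.2))).1 A hA)
    obtain ⟨hj', hr'⟩ := par_spec ((H.PS_SigT u'.1 (ne_of_tr (tr_aOf_ne ha0 u'.2))).1 A' hA')
    have e2 : A = A' := by
      rw [← hr, ← hr']
      apply le_antisymm
      · rintro _ ⟨z, rfl⟩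
        obtain ⟨z', -, h2⟩ := mem_liftM.mp (e1.le (mem_liftM.mpr ⟨z, rfl, rfl⟩))
        exact ⟨z', h2.symm⟩
      · rintro _ ⟨z, rfl⟩
        obtain ⟨z', -, h2⟩ := mem_liftM.mp (e1.ge (mem_liftM.mpr ⟨z, rfl, rfl⟩))
        exact ⟨z', h2.symm⟩
    subst e2
    have e3 : (Fin.cons c (Φ A u) : Fin (n + 1) → E) = Fin.cons d (Φ A u') := by
      refine ext0_inj fun j hj' => H.coef (fun z => ?_) hj'
      obtain ⟨z', h1, h2⟩ := mem_liftM.mp (e1.le (mem_liftM.mpr ⟨z, rfl, rfl⟩))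
      rw [← hj h2, lin_apply, lin_apply, ev_cons, ev_cons] at h1
      exact h1
    exact hΦ A (mem_coe.mpr (mem_filter.mpr ⟨hu, mem_of_SigT hA hne⟩))
      (mem_coe.mpr (mem_filter.mpr ⟨hu', mem_of_SigT hA' hne'⟩)) (Fin.cons_injective2 e3).2

/-- The conclusion: many pairwise disjoint spreads of `k`-dimensional subspaces. -/
def Concl (K V : Type) [Field K] [AddCommGroup V] [Module K V] (k N : ℕ) : Prop :=
  ∃ F : Finset (Set (Submodule K V)),
    (∀ S ∈ F, (∀ U ∈ S, Module.finrank K U = k) ∧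
      ∀ P : Submodule K V, Module.finrank K P = 1 → ∃! U, U ∈ S ∧ P ≤ U) ∧
    (∀ S ∈ F, ∀ S' ∈ F, S ≠ S' → Disjoint S S') ∧
    N ≤ F.card

omit [Fintype K] [Fintype E] in
lemma PS.cover {V : Type} [AddCommGroup V] [Module K V] {S : Set (Submodule K V)} (hS : PS E S)
    (P : Submodule K V) (hP : Module.finrank K P = 1) : ∃! U, U ∈ S ∧ P ≤ U := by
  obtain ⟨v, hv0, hv⟩ := finrank_eq_one_iff'.mp hP
  obtain ⟨U, ⟨hU, hvU⟩, hu⟩ := hS.2 v.1 fun h => hv0 (Subtype.ext h)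
  refine ⟨U, ⟨hU, fun z hz => ?_⟩, fun U' h => hu U' ⟨h.1, h.2 v.2⟩⟩
  obtain ⟨t, ht⟩ := hv ⟨z, hz⟩
  have : z = t • v.1 := (congrArg Subtype.val ht).symm
  rw [this]
  exact U.smul_mem t hvU

theorem HB.concl (H : HB σ n) (l : ℕ) {V : Type} [AddCommGroup V] [Module K V]
    (g : (E × ((Fin (l + 1) → E) × E)) ≃ₗ[K] V) :
    Concl K V (n + 1) (Fintype.card K ^ ((n + 1) * (n * (l + 2)))) := by
  obtain ⟨c', hc, hc'⟩ := H.exists_c
  obtain ⟨a0, ha0⟩ := exists_tr_one (K := K) (one_ne_zero (α := E))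
  rw [one_mul] at ha0
  have key : ∀ A : Submodule K ((Fin (l + 1) → E) × E), ∃ f :
      (Fin (l + 1) → Fin (n + 1) → E) × (Fin (n + 1) → E) → Fin n → E,
      Set.InjOn f (usr σ n l c' a0 A) := by
    intro A
    obtain ⟨e⟩ := Function.Embedding.nonempty_of_card_le (α := usr σ n l c' a0 A) (β := Fin n → E)
      (by rw [Fintype.card_coe, Fintype.card_fun, Fintype.card_fin]
          exact H.card_usr hc ha0 A)
    refine ⟨fun u => if h : u ∈ usr σ n l c' a0 A then e ⟨u, h⟩ else 0, fun u hu u' hu' h => ?_⟩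
    simp only [dif_pos (mem_coe.mp hu), dif_pos (mem_coe.mp hu')] at h
    exact congrArg Subtype.val (e.injective h)
  choose Φ hΦ using key
  let T := fun u => (fun U : Submodule K (E × ((Fin (l + 1) → E) × E)) => U.map g.toLinearMap) ''
    cls σ n l a0 Φ u
  have hT : ∀ u ∈ Ix K n l c', PS E (T u) := fun u hu => (H.PS_cls ha0 Φ hu).map g
  have hd : ∀ u ∈ Ix K n l c', ∀ u' ∈ Ix K n l c', ∀ X, X ∈ T u → X ∈ T u' → u = u' := by
    rintro u hu u' hu' _ ⟨X, hX, rfl⟩ ⟨X', hX', e⟩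
    have : X' = X := Submodule.map_injective_of_injective g.injective e
    exact H.disj hc hc' ha0 hΦ hu hu' hX (this ▸ hX')
  refine ⟨(Ix K n l c').image T, fun S hS => ?_, fun S hS S' hS' hne => ?_, ?_⟩
  · obtain ⟨u, hu, rfl⟩ := mem_image.mp hS
    refine ⟨fun U hU => ?_, (hT u hu).cover⟩
    obtain ⟨j, hj, rfl⟩ := (hT u hu).1 U hU
    rw [LinearMap.finrank_range_of_inj hj, H.hr]
  · obtain ⟨u, hu, rfl⟩ := mem_image.mp hS
    obtain ⟨u', hu', rfl⟩ := mem_image.mp hS'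
    exact Set.disjoint_left.mpr fun X h h' => hne (by rw [hd u hu u' hu' X h h'])
  · rw [card_image_of_injOn, H.card_Ix l (ne_of_tr hc)]
    intro u hu u' hu' e
    obtain ⟨X, ⟨hX, -⟩, -⟩ := (hT u hu).2 (g (1, 0)) ((map_ne_zero_iff _ g.injective).mpr
      fun h => one_ne_zero (congrArg Prod.fst h))
    exact hd u hu u' hu' X hX (e ▸ hX)

theorem exists_ext (K : Type) [Field K] [Fintype K] (N : ℕ) (hN : 0 < N) :
    ∃ (L : Type) (_ : Field L) (_ : Algebra K L) (_ : Fintype L) (σ : L ≃ₐ[K] L),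
      Module.finrank K L = N ∧ ∀ j x, (σ ^ j) x = x ^ (Fintype.card K ^ j) := by
  obtain ⟨p, hp⟩ := CharP.exists K
  have : Fact p.Prime := ⟨CharP.char_is_prime K p⟩
  have : NeZero N := ⟨hN.ne'⟩
  refine ⟨FiniteField.Extension K p N, inferInstance, inferInstance, Fintype.ofFinite _,
    FiniteField.frobeniusAlgEquivOfAlgebraic K _, FiniteField.finrank_extension K p N,
    fun j x => ?_⟩
  rw [AlgEquiv.coe_pow, FiniteField.coe_frobeniusAlgEquivOfAlgebraic_iterate]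

theorem concl_big (K : Type) [Field K] [Fintype K] (t d : ℕ) (ht : 2 ≤ t) (htd : t < d)
    (hdvd : (t + 1) ∣ (d + 1)) (h2 : d ≠ 2 * t + 1) :
    Concl K (Fin (d + 1) → K) (t + 1) (Fintype.card K ^ (t * (d - t))) := by
  obtain ⟨m, hm⟩ := hdvd
  obtain ⟨l, rfl⟩ : ∃ l, m = l + 3 := by
    refine ⟨m - 3, ?_⟩
    rcases m with _ | _ | _ | m
    · omega
    · omega
    · omega
    · omega
  obtain ⟨E, _, _, _, σ, hr, hσ⟩ := exists_ext K (t + 1) (by omega)
  have H : HB σ t := ⟨ht, hσ, hr⟩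
  have g : (E × ((Fin (l + 1) → E) × E)) ≃ₗ[K] (Fin (d + 1) → K) :=
    LinearEquiv.ofFinrankEq _ _ (by
      rw [Module.finrank_prod, Module.finrank_prod, Module.finrank_pi_fintype,
        Module.finrank_fin_fun, hm]
      simp only [hr, Finset.sum_const, card_univ, Fintype.card_fin, smul_eq_mul]
      ring)
  have := H.concl l g
  rwa [show (t + 1) * (t * (l + 2)) = t * (d - t) by
    have : d - t = (t + 1) * (l + 2) := by
      have : (t + 1) * (l + 3) = (t + 1) * (l + 2) + (t + 1) := by ring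
      omega
    rw [this]; ring] at this

end Pool.Agent.P.MP_3b9ee7_co.NP
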