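import Pool.Agent.P.MP_3b9ee7_co.NP.Count

set_option autoImplicit false

namespace Pool.Agent.P.MP_3b9ee7_co.NP

open Finset
open scoped Classical

variable {K E : Type} [Field K] [Field E] [Algebra K E]

/-- A skew polynomial as a linear map. -/
def lin (σ : E ≃ₐ[K] E) (n : ℕ) (c : ℕ → E) : E →ₗ[K] E where
  toFun := ev σ n c
  map_add' := fun x y => by simp only [ev, map_add, mul_add, Finset.sum_add_distrib]
  map_smul' := fun t x => by
    simp only [ev, map_smul, mul_smul_comm, Finset.smul_sum, RingHom.id_apply]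

lemma lin_apply (σ : E ≃ₐ[K] E) (n : ℕ) (c : ℕ → E) (y : E) : lin σ n c y = ev σ n c y := rfl

/-- The trace. -/
noncomputable abbrev tr (K : Type) {E : Type} [Field K] [Field E] [Algebra K E] : E →ₗ[K] K :=
  Algebra.trace K E

variable [Fintype K] [Fintype E]

structure HB (σ : E ≃ₐ[K] E) (n : ℕ) : Prop where
  hn : 2 ≤ n
  hσ : ∀ j x, (σ ^ j) x = x ^ (Fintype.card K ^ j)
  hr : Module.finrank K E = n + 1

variable {σ : E ≃ₐ[K] E} {n : ℕ}

lemma HB.card (H : HB σ n) : Fintype.card E = Fintype.card K ^ (n + 1) := by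
  rw [← H.hr]; exact Module.card_eq_pow_finrank

lemma HB.per (H : HB σ n) (x : E) : (σ ^ (n + 1)) x = x := by
  rw [H.hσ, ← H.card, FiniteField.pow_card]

lemma HB.inv1 (H : HB σ n) (x : E) : (σ ^ n) (σ x) = x := by
  have := H.per x
  rwa [pow_succ, AlgEquiv.mul_apply] at this

lemma HB.inv2 (H : HB σ n) (x : E) : σ ((σ ^ n) x) = x := by
  have := H.per x
  rwa [pow_succ', AlgEquiv.mul_apply] at this

lemma HB.ind (H : HB σ n) {γ : ℕ → E} (hγ : ∀ x, ev σ n γ x = 0) {j : ℕ} (hj : j ≤ n) :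
    γ j = 0 := by
  have hq : 2 ≤ Fintype.card K := Fintype.one_lt_card
  let P : Polynomial E := ∑ m ∈ range (n + 1), Polynomial.monomial (Fintype.card K ^ m) (γ m)
  have hP : P = 0 := by
    apply Polynomial.eq_zero_of_natDegree_lt_card_of_eval_eq_zero' P univ
    · intro x _
      rw [← hγ x]
      simp only [P, ev, Polynomial.eval_finsetSum, Polynomial.eval_monomial, H.hσ]
    · rw [card_univ, H.card]
      have : P.natDegree ≤ Fintype.card K ^ n := by
        refine Polynomial.natDegree_sum_le_of_forall_le _ _ fun m hm => ?_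
        refine (Polynomial.natDegree_monomial_le _).trans ?_
        exact Nat.pow_le_pow_right (by omega) (by rw [mem_range] at hm; omega)
      exact this.trans_lt (Nat.pow_lt_pow_right (by omega) (by omega))
  have h := congrArg (fun R => R.coeff (Fintype.card K ^ j)) hP
  simp only [P, Polynomial.finsetSum_coeff, Polynomial.coeff_monomial, Polynomial.coeff_zero] at h
  rw [Finset.sum_eq_single j, if_pos rfl] at h
  · exact h
  · intro m _ hm
    rw [if_neg]
    intro e
    exact hm (Nat.pow_right_injective hq e)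
  · intro h'
    exact absurd (mem_range.mpr (by omega)) h'

lemma HB.coef (H : HB σ n) {c c' : ℕ → E} (h : ∀ x, ev σ n c x = ev σ n c' x) {j : ℕ}
    (hj : j ≤ n) : c j = c' j :=
  sub_eq_zero.mp (H.ind (γ := fun j => c j - c' j) (fun x => by rw [ev_sub, h, sub_self]) hj)

lemma HB.trs (H : HB σ n) (z : E) :
    algebraMap K E (tr K z) = ∑ j ∈ range (n + 1), (σ ^ j) z := by
  rw [FiniteField.algebraMap_trace_eq_sum_pow, H.hr]
  simp only [H.hσ, Nat.card_eq_fintype_card]

lemma HB.fix (H : HB σ n) {z : E} (hz : σ z = z) : ∃ t : K, algebraMap K E t = z := by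
  have h1 := card_fix (L := E) (d := 1) Fintype.one_lt_card H.card (one_dvd _) one_pos
  have h2 : (univ.image (algebraMap K E)) =
      univ.filter fun x : E => x ^ (Fintype.card K ^ 1) = x := by
    apply eq_of_subset_of_card_le
    · intro x hx
      obtain ⟨t, -, rfl⟩ := mem_image.mp hx
      refine mem_filter.mpr ⟨mem_univ _, ?_⟩
      rw [← H.hσ, AlgEquiv.commutes]
    · rw [h1, card_image_of_injective _ (algebraMap K E).injective, card_univ, pow_one]
  have : z ∈ univ.image (algebraMap K E) := by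
    rw [h2]
    refine mem_filter.mpr ⟨mem_univ _, ?_⟩
    rw [← H.hσ, pow_one, hz]
  obtain ⟨t, -, ht⟩ := mem_image.mp this
  exact ⟨t, ht⟩

omit [Fintype K] in
lemma tr_nondeg {γ : E} (h : ∀ y, tr K (γ * y) = 0) : γ = 0 :=
  (traceForm_nondegenerate K E).1 γ fun y => by rw [Algebra.traceForm_apply]; exact h y

omit [Fintype K] in
lemma exists_tr_one {γ : E} (h : γ ≠ 0) : ∃ y, tr K (γ * y) = 1 := by
  have : ∃ y, tr K (γ * y) ≠ 0 := by
    by_contra hc
    push Not at hc
    exact h (tr_nondeg hc)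
  obtain ⟨y, hy⟩ := this
  exact ⟨(tr K (γ * y))⁻¹ • y, by rw [mul_smul_comm, map_smul, smul_eq_mul, inv_mul_cancel₀ hy]⟩

omit [Fintype K] in
lemma exists_rep (f : E →ₗ[K] K) : ∃ δ : E, ∀ y, f y = tr K (δ * y) :=
  ⟨((Algebra.traceForm K E).toDual (traceForm_nondegenerate K E)).symm f, fun y => by
    rw [← Algebra.traceForm_apply, LinearMap.BilinForm.apply_toDual_symm_apply]⟩

omit [Fintype K] [Fintype E] in
lemma tr_sigma (σ : E ≃ₐ[K] E) (z : E) : tr K (σ z) = tr K z := Algebra.trace_eq_of_algEquiv σ z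

lemma HB.coef_two (H : HB σ n) {c : ℕ → E} {p w δ γ : E}
    (h : ∀ y, ev σ n c y = tr K (δ * y) • p + tr K (γ * y) • w) {j : ℕ} (hj : j ≤ n) :
    c j = p * (σ ^ j) δ + w * (σ ^ j) γ := by
  refine H.coef (c' := fun j => p * (σ ^ j) δ + w * (σ ^ j) γ) (fun y => ?_) hj
  rw [h, Algebra.smul_def, Algebra.smul_def, H.trs, H.trs, ev, Finset.sum_mul, Finset.sum_mul,
    ← Finset.sum_add_distrib]
  exact Finset.sum_congr rfl fun i _ => by rw [map_mul, map_mul]; ring

omit [Fintype K] [Fintype E] in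
lemma decomp0 {M : Type} [AddCommGroup M] [Module K M] (ψ : E →ₗ[K] M) {γ y0 : E}
    (h0 : tr K (γ * y0) = 1) (h : ∀ y, tr K (γ * y) = 0 → ψ y = 0) (y : E) :
    ψ y = tr K (γ * y) • ψ y0 := by
  have := h (y - tr K (γ * y) • y0) (by
    rw [mul_sub, map_sub, mul_smul_comm, map_smul, h0, smul_eq_mul, mul_one, sub_self])
  rw [map_sub, map_smul] at this
  exact sub_eq_zero.mp this

omit [Fintype K] in
lemma decomp {M : Type} [AddCommGroup M] [Module K M] (ψ : E →ₗ[K] M) {γ y0 : E} {p : M}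
    (hp : p ≠ 0) (h0 : tr K (γ * y0) = 1) (h : ∀ y, tr K (γ * y) = 0 → ∃ t : K, ψ y = t • p) :
    ∃ δ : E, tr K (δ * y0) = 0 ∧ ∀ y, ψ y = tr K (δ * y) • p + tr K (γ * y) • ψ y0 := by
  obtain ⟨f, hf⟩ : ∃ f : Module.Dual K M, f p ≠ 0 := by
    by_contra hc
    push Not at hc
    exact hp ((Module.forall_dual_apply_eq_zero_iff K p).mp hc)
  let g : E →ₗ[K] E := LinearMap.id - ((tr K).comp (LinearMap.mulLeft K γ)).smulRight y0
  have hg : ∀ y, g y = y - tr K (γ * y) • y0 := fun y => rfl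
  obtain ⟨δ, hδ⟩ := exists_rep (((f p)⁻¹ • f).comp (ψ.comp g))
  have e : ∀ y, tr K (δ * y) = (f p)⁻¹ * f (ψ (g y)) := fun y => (hδ y).symm
  refine ⟨δ, by rw [e, hg, h0, one_smul, sub_self, map_zero, map_zero, mul_zero], fun y => ?_⟩
  obtain ⟨t, ht⟩ := h (g y) (by
    rw [hg, mul_sub, map_sub, mul_smul_comm, map_smul, h0, smul_eq_mul, mul_one, sub_self])
  rw [e, ht, map_smul, smul_eq_mul, mul_comm t, inv_mul_cancel_left₀ hf, ← ht, hg, map_sub,
    map_smul, sub_add_cancel]

omit [Fintype K] in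
lemma prop_of_ker {γ γ' : E} (hγ : γ ≠ 0) (h : ∀ y, tr K (γ * y) = 0 → tr K (γ' * y) = 0) :
    ∃ t : K, γ' = t • γ := by
  obtain ⟨y0, h0⟩ := exists_tr_one (K := K) hγ
  refine ⟨tr K (γ' * y0), sub_eq_zero.mp (tr_nondeg (K := K) fun y => ?_)⟩
  have := decomp0 ((tr K).comp (LinearMap.mulLeft K γ')) h0 h y
  simp only [LinearMap.comp_apply, LinearMap.mulLeft_apply, smul_eq_mul] at this
  rw [sub_mul, map_sub, this, smul_mul_assoc, map_smul, smul_eq_mul, mul_comm, sub_self]

lemma HB.card_fibre (H : HB σ n) {γ : E} (hγ : γ ≠ 0) (θ : K) :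
    (univ.filter fun y : E => tr K (γ * y) = θ).card = Fintype.card K ^ n := by
  obtain ⟨y0, h0⟩ := exists_tr_one (K := K) hγ
  have h1 : ∀ θ : K, (univ.filter fun y : E => tr K (γ * y) = θ).card =
      (univ.filter fun y : E => tr K (γ * y) = 0).card := by
    intro θ
    refine card_bij (fun y _ => y - θ • y0) ?_ ?_ ?_
    · intro y hy
      refine mem_filter.mpr ⟨mem_univ _, ?_⟩
      rw [mul_sub, map_sub, mul_smul_comm, map_smul, h0, (mem_filter.mp hy).2, smul_eq_mul,
        mul_one, sub_self]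
    · intro y _ y' _ e
      exact sub_left_injective e
    · intro y hy
      refine ⟨y + θ • y0, mem_filter.mpr ⟨mem_univ _, ?_⟩, by simp⟩
      rw [mul_add, map_add, mul_smul_comm, map_smul, h0, (mem_filter.mp hy).2, smul_eq_mul,
        mul_one, zero_add]
  have h2 := card_eq_sum_card_fiberwise (s := (univ : Finset E)) (t := (univ : Finset K))
    (f := fun y => tr K (γ * y)) (fun _ _ => mem_coe.mpr (mem_univ _))
  simp only [h1, Finset.sum_const, card_univ, smul_eq_mul] at h2
  rw [h1]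
  rw [H.card, pow_succ'] at h2
  exact (Nat.eq_of_mul_eq_mul_left Fintype.card_pos h2).symm

lemma HB.h90 (H : HB σ n) {z : E} (hz : tr K z = 0) : ∃ s, z = s - σ s := by
  let g : E →ₗ[K] E := LinearMap.id - σ.toLinearMap
  have hg : ∀ y, g y = y - σ y := fun y => rfl
  have h1 : LinearMap.range g ≤ LinearMap.ker (tr K (E := E)) := by
    rintro _ ⟨y, rfl⟩
    rw [LinearMap.mem_ker, hg, map_sub, tr_sigma, sub_self]
  have h2 : Module.finrank K (LinearMap.ker g) ≤ 1 := by
    have : LinearMap.ker g ≤ Submodule.span K {(1 : E)} := by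
      intro y hy
      rw [LinearMap.mem_ker, hg] at hy
      obtain ⟨t, rfl⟩ := H.fix (sub_eq_zero.mp hy).symm
      rw [Algebra.algebraMap_eq_smul_one]
      exact Submodule.smul_mem _ _ (Submodule.mem_span_singleton_self _)
    exact (Submodule.finrank_mono this).trans (finrank_span_singleton one_ne_zero).le
  have h3 : Module.finrank K (LinearMap.ker (tr K (E := E))) < n + 1 := by
    rw [← H.hr]
    apply Submodule.finrank_lt
    intro h
    obtain ⟨y, hy⟩ := exists_tr_one (K := K) (one_ne_zero (α := E))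
    have : (1 * y) ∈ LinearMap.ker (tr K (E := E)) := h ▸ Submodule.mem_top
    rw [LinearMap.mem_ker, hy] at this
    exact one_ne_zero this
  have h4 := LinearMap.finrank_range_add_finrank_ker g
  rw [H.hr] at h4
  have h5 := Submodule.eq_of_le_of_finrank_le h1 (by omega)
  have : z ∈ LinearMap.range g := h5 ▸ LinearMap.mem_ker.mpr hz
  obtain ⟨y, hy⟩ := this
  exact ⟨y, hy.symm⟩

lemma HB.exists_c (H : HB σ n) : ∃ c : E, tr K c ≠ 0 ∧ σ c ≠ c := by
  obtain ⟨u, hu⟩ := exists_tr_one (K := K) (one_ne_zero (α := E))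
  rw [one_mul] at hu
  obtain ⟨v, hv⟩ : ∃ v : E, σ v ≠ v := by
    by_contra hc
    push Not at hc
    have h1 : Function.Surjective (algebraMap K E) := fun z => H.fix (hc z)
    have h2 := Fintype.card_le_of_surjective _ h1
    rw [H.card] at h2
    have h3 : Fintype.card K ^ 1 < Fintype.card K ^ (n + 1) :=
      Nat.pow_lt_pow_right Fintype.one_lt_card (by have := H.hn; omega)
    rw [pow_one] at h3
    omega
  by_cases h1 : σ u = u
  · by_cases h2 : tr K v = 0
    · refine ⟨u + v, by rw [map_add, hu, h2, add_zero]; exact one_ne_zero, fun h => hv ?_⟩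
      rw [map_add, h1] at h
      exact add_left_cancel h
    · exact ⟨v, h2, hv⟩
  · exact ⟨u, by rw [hu]; exact one_ne_zero, h1⟩

/-- Freeness of the translation group on members that meet the head in a point. -/
lemma HB.free (H : HB σ n) {c' x : E} (hc : tr K c' ≠ 0) (hx : x ≠ 0) {ψ : ℕ → E}
    (h0 : ψ 0 = 0) (hl : ∃ t : K, ψ n = t • c')
    (h : ∀ y, tr K ((σ x)⁻¹ * y) = 0 → ∃ t : K, ev σ n ψ y = t • x) {j : ℕ} (hj : j ≤ n) :
    ψ j = 0 := by
  have hσx : σ x ≠ 0 := (map_ne_zero _).mpr hx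
  obtain ⟨y0, hy0⟩ := exists_tr_one (K := K) (inv_ne_zero hσx)
  obtain ⟨δ, -, hδ⟩ := decomp (lin σ n ψ) hx hy0 h
  set w := lin σ n ψ y0
  have e : ∀ j, j ≤ n → ψ j = x * (σ ^ j) δ + w * (σ ^ j) (σ x)⁻¹ := fun j hj => H.coef_two hδ hj
  have e0 := e 0 (Nat.zero_le _)
  rw [h0, pow_zero, AlgEquiv.one_apply, AlgEquiv.one_apply] at e0
  have hw : w = -(x * δ * σ x) := by
    field_simp at e0
    linear_combination -e0
  have en := e n le_rfl
  rw [map_inv₀, H.inv1, hw] at en
  set z := x * (σ ^ n) δ with hz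
  have hσz : σ z = σ x * δ := by rw [hz, map_mul, H.inv2]
  have en' : ψ n = z - σ z := by
    rw [en, hσz]
    field_simp
    ring
  obtain ⟨t, ht⟩ := hl
  have ht0 : t = 0 := by
    have := congrArg (tr K) (ht.symm.trans en')
    rw [map_smul, map_sub, tr_sigma, sub_self, smul_eq_mul] at this
    exact (mul_eq_zero.mp this).resolve_right hc
  rw [ht, ht0, zero_smul] at en'
  obtain ⟨u, hu⟩ := H.fix (sub_eq_zero.mp en'.symm).symm
  have hδ' : δ = algebraMap K E u * (σ x)⁻¹ := by
    rw [hu, sub_eq_zero.mp en'.symm, hσz]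
    field_simp
  rw [e j hj, hw, hδ', map_mul, AlgEquiv.commutes]
  field_simp
  ring

end Pool.Agent.P.MP_3b9ee7_co.NP
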