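import Pool.Agent.P.MP_3b9ee7_co.NP.Core

set_option autoImplicit false

namespace Pool.Agent.P.MP_3b9ee7_co.NP

open Finset
open scoped Classical

variable {K E : Type} [Field K] [Field E] [Algebra K E]

/-- A spread whose members are copies of `E`. -/
def PS (E : Type) [Field E] [Algebra K E] {V : Type} [AddCommGroup V] [Module K V]
    (S : Set (Submodule K V)) : Prop :=
  (∀ U ∈ S, ∃ j : E →ₗ[K] V, Function.Injective j ∧ LinearMap.range j = U) ∧
    ∀ v : V, v ≠ 0 → ∃! U, U ∈ S ∧ v ∈ U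

section gen

variable {V W : Type} [AddCommGroup V] [Module K V] [AddCommGroup W] [Module K W]

lemma PS.map {S : Set (Submodule K V)} (hS : PS E S) (g : V ≃ₗ[K] W) :
    PS E ((fun U : Submodule K V => U.map g.toLinearMap) '' S) := by
  refine ⟨?_, fun w hw => ?_⟩
  · rintro _ ⟨U, hU, rfl⟩
    obtain ⟨j, hj, rfl⟩ := hS.1 U hU
    exact ⟨g.toLinearMap.comp j, fun x y e => hj (g.injective e), LinearMap.range_comp _ _⟩
  · obtain ⟨U, ⟨hU, hv⟩, hu⟩ := hS.2 (g.symm w) ((map_ne_zero_iff _ g.symm.injective).mpr hw)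
    refine ⟨U.map g.toLinearMap, ⟨⟨U, hU, rfl⟩, ⟨g.symm w, hv, by simp⟩⟩, ?_⟩
    rintro _ ⟨⟨U', hU', rfl⟩, v, hv', e⟩
    have : U' = U := hu U' ⟨hU', by rw [← e]; simpa using hv'⟩
    rw [this]

/-- Member of the core over the marked member. -/
def coreM (ι : E →ₗ[K] W) (U : Submodule K (E × E)) : Submodule K (E × W) :=
  U.map (LinearMap.prodMap LinearMap.id ι)

/-- Lift of an unmarked member. -/
def liftM (φ : E →ₗ[K] E) (J : E →ₗ[K] W) (c : E) : Submodule K (E × W) :=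
  LinearMap.range ((φ + LinearMap.mulLeft K c).prod J)

lemma mem_coreM {ι : E →ₗ[K] W} {U : Submodule K (E × E)} {x : E} {w : W} :
    (x, w) ∈ coreM ι U ↔ ∃ y, (x, y) ∈ U ∧ w = ι y := by
  simp only [coreM, Submodule.mem_map]
  constructor
  · rintro ⟨⟨a, y⟩, h, e⟩
    have e1 : a = x := congrArg Prod.fst e
    have e2 : ι y = w := congrArg Prod.snd e
    exact ⟨y, e1 ▸ h, e2.symm⟩
  · rintro ⟨y, h, rfl⟩
    exact ⟨(x, y), h, rfl⟩

lemma mem_liftM {φ : E →ₗ[K] E} {J : E →ₗ[K] W} {c x : E} {w : W} :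
    (x, w) ∈ liftM φ J c ↔ ∃ z, x = φ z + c * z ∧ w = J z := by
  simp only [liftM, LinearMap.mem_range, Prod.ext_iff]
  exact exists_congr fun l => ⟨fun h => ⟨h.1.symm, h.2.symm⟩, fun h => ⟨h.1.symm, h.2.symm⟩⟩

def liftS (Sg : Set (Submodule K W)) (ι : E →ₗ[K] W) (T : Set (Submodule K (E × E)))
    (J : Submodule K W → E →ₗ[K] W) (φ : Submodule K W → E →ₗ[K] E) :
    Set (Submodule K (E × W)) :=
  {X | (∃ U ∈ T, X = coreM ι U) ∨
    ∃ A ∈ Sg, A ≠ LinearMap.range ι ∧ ∃ c, X = liftM (φ A) (J A) c}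

lemma PS.lift {Sg : Set (Submodule K W)} (hS : PS E Sg) {ι : E →ₗ[K] W}
    (hι : Function.Injective ι) (hm : LinearMap.range ι ∈ Sg) {T : Set (Submodule K (E × E))}
    (hT : PS E T) {J : Submodule K W → E →ₗ[K] W}
    (hJ : ∀ A ∈ Sg, Function.Injective (J A) ∧ LinearMap.range (J A) = A)
    (φ : Submodule K W → E →ₗ[K] E) : PS E (liftS Sg ι T J φ) := by
  refine ⟨?_, ?_⟩
  · rintro _ (⟨U, hU, rfl⟩ | ⟨A, hA, -, c, rfl⟩)
    · obtain ⟨j, hj, rfl⟩ := hT.1 U hU
      refine ⟨(LinearMap.prodMap LinearMap.id ι).comp j, fun x y e => hj ?_,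
        LinearMap.range_comp _ _⟩
      have e1 : (j x).1 = (j y).1 := congrArg (fun v : E × W => v.1) e
      have e2 : ι (j x).2 = ι (j y).2 := congrArg (fun v : E × W => v.2) e
      exact Prod.ext e1 (hι e2)
    · exact ⟨_, fun x y e => (hJ A hA).1 (congrArg Prod.snd e), rfl⟩
  · rintro ⟨x, w⟩ hv
    by_cases hw : w ∈ LinearMap.range ι
    · obtain ⟨y, rfl⟩ := hw
      have h0 : (x, y) ≠ 0 := by
        intro h
        rw [Prod.mk_eq_zero] at h
        exact hv (by rw [h.1, h.2, map_zero]; rfl)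
      obtain ⟨U, ⟨hU, hxy⟩, hu⟩ := hT.2 _ h0
      refine ⟨coreM ι U, ⟨Or.inl ⟨U, hU, rfl⟩, mem_coreM.mpr ⟨y, hxy, rfl⟩⟩, ?_⟩
      rintro _ ⟨⟨U', hU', rfl⟩ | ⟨A, hA, hne, c, rfl⟩, hX⟩
      · obtain ⟨y', h1, h2⟩ := mem_coreM.mp hX
        rw [hu U' ⟨hU', by rw [hι h2]; exact h1⟩]
      · obtain ⟨z, h1, h2⟩ := mem_liftM.mp hX
        by_cases hz : z = 0
        · rw [hz] at h1 h2
          exact absurd (by rw [h1, h2]; simp) hv
        · have h3 : J A z ≠ 0 := (map_ne_zero_iff _ (hJ A hA).1).mpr hz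
          exact absurd ((hS.2 _ h3).unique ⟨hA, (hJ A hA).2.le (LinearMap.mem_range_self _ z)⟩
            ⟨hm, y, h2⟩) hne
    · have hw0 : w ≠ 0 := fun h => hw (h ▸ Submodule.zero_mem _)
      obtain ⟨A, ⟨hA, hwA⟩, hu⟩ := hS.2 w hw0
      have hwA' : w ∈ LinearMap.range (J A) := (hJ A hA).2.symm ▸ hwA
      obtain ⟨z, hz⟩ := hwA'
      have hz0 : z ≠ 0 := by
        rintro rfl
        exact hw0 (by rw [← hz, map_zero])
      refine ⟨liftM (φ A) (J A) ((x - φ A z) / z),
        ⟨Or.inr ⟨A, hA, fun h => hw (h ▸ hwA), _, rfl⟩,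
          mem_liftM.mpr ⟨z, by rw [div_mul_cancel₀ _ hz0]; ring, hz.symm⟩⟩, ?_⟩
      rintro _ ⟨⟨U', hU', rfl⟩ | ⟨A', hA', hne, c, rfl⟩, hX⟩
      · obtain ⟨y', -, h2⟩ := mem_coreM.mp hX
        exact absurd ⟨y', h2.symm⟩ hw
      · obtain ⟨z', h1, h2⟩ := mem_liftM.mp hX
        have e : A' = A := hu A' ⟨hA', by
          rw [h2]; exact (hJ A' hA').2.le (LinearMap.mem_range_self _ z')⟩
        subst e
        have e2 : z' = z := (hJ A' hA').1 (h2.symm.trans hz.symm)
        subst e2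
        congr 1
        rw [eq_div_iff hz0, h1]
        ring

end gen

variable {σ : E ≃ₐ[K] E} {n l : ℕ}

lemma PS_core (σ : E ≃ₐ[K] E) : PS E (Set.range (UT σ)) := by
  refine ⟨?_, ?_⟩
  · rintro _ ⟨o, rfl⟩
    exact ⟨jT σ o, jT_inj o, rfl⟩
  · rintro ⟨x, y⟩ h
    obtain ⟨o, ho, hu⟩ := UT_unique (σ := σ) h
    refine ⟨UT σ o, ⟨⟨o, rfl⟩, ho⟩, ?_⟩
    rintro _ ⟨⟨o', rfl⟩, ho'⟩
    rw [hu o' ho']

/-- Parametrisation of the members of the spread of the quotient. -/
noncomputable def Mm (σ : E ≃ₐ[K] E) (n : ℕ) (a : E) (i : Fin l) (o : Option E) (c : Fin l → E) :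
    E →ₗ[K] (Fin l → E) × E :=
  (LinearMap.pi fun i' => if i' < i then 0 else if i' = i then
      (LinearMap.mulLeft K a).comp ((LinearMap.fst K E E).comp (jj σ n o))
    else LinearMap.mulLeft K (c i')).prod ((LinearMap.snd K E E).comp (jj σ n o))

lemma Mm_fst (a : E) (i : Fin l) (o : Option E) (c : Fin l → E) (z : E) (i' : Fin l) :
    (Mm σ n a i o c z).1 i' =
      if i' < i then 0 else if i' = i then a * (jj σ n o z).1 else c i' * z := by
  change (if i' < i then 0 else if i' = i then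
      (LinearMap.mulLeft K a).comp ((LinearMap.fst K E E).comp (jj σ n o))
    else LinearMap.mulLeft K (c i')) z = _
  split_ifs <;> rfl

lemma Mm_snd (a : E) (i : Fin l) (o : Option E) (c : Fin l → E) (z : E) :
    (Mm σ n a i o c z).2 = (jj σ n o z).2 := rfl

lemma Mm_self (a : E) (i : Fin l) (o : Option E) (c : Fin l → E) (z : E) :
    (Mm σ n a i o c z).1 i = a * (jj σ n o z).1 := by
  rw [Mm_fst, if_neg (lt_irrefl _), if_pos rfl]

lemma Mm_lt (a : E) {i i' : Fin l} (h : i' < i) (o : Option E) (c : Fin l → E) (z : E) :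
    (Mm σ n a i o c z).1 i' = 0 := by
  rw [Mm_fst, if_pos h]

lemma Mm_gt (a : E) {i i' : Fin l} (h : i < i') (o : Option E) (c : Fin l → E) (z : E) :
    (Mm σ n a i o c z).1 i' = c i' * z := by
  rw [Mm_fst, if_neg (not_lt.mpr h.le), if_neg h.ne']

lemma Mm_congr (a : E) (i : Fin l) (o : Option E) {c c' : Fin l → E}
    (h : ∀ i', i < i' → c i' = c' i') : Mm σ n a i o c = Mm σ n a i o c' := by
  refine LinearMap.ext fun z => Prod.ext (funext fun i' => ?_) rfl
  rcases lt_trichotomy i' i with h1 | h1 | h1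
  · rw [Mm_lt a h1, Mm_lt a h1]
  · rw [h1, Mm_self, Mm_self]
  · rw [Mm_gt a h1, Mm_gt a h1, h i' h1]

def Sig (σ : E ≃ₐ[K] E) (n l : ℕ) (a : E) : Set (Submodule K ((Fin l → E) × E)) :=
  {U | U = LinearMap.range (LinearMap.inr K (Fin l → E) E) ∨
    ∃ (i : Fin l) (o : Option E) (c : Fin l → E), o ≠ some 0 ∧
      U = LinearMap.range (Mm σ n a i o c)}

variable [Fintype K] [Fintype E]

lemma HB.jj_fst (H : HB σ n) {o : Option E} (ho : o ≠ some 0) {z : E} (h : (jj σ n o z).1 = 0) :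
    z = 0 := by
  by_contra hz
  have h1 : jj σ n o z ≠ 0 := (map_ne_zero_iff _ (jj_inj o)).mpr hz
  have h2 : jj σ n o z ∈ UT σ o := H.mem_jj.mpr ⟨z, rfl⟩
  exact ho ((UT_unique (σ := σ) (x := (jj σ n o z).1) (y := (jj σ n o z).2) h1).unique h2
    (mem_UT_zero.mpr h))

lemma HB.Mm_ne (H : HB σ n) {a : E} (ha : a ≠ 0) (i : Fin l) {o : Option E} (ho : o ≠ some 0)
    (c : Fin l → E) {z : E} (hz : z ≠ 0) : (Mm σ n a i o c z).1 i ≠ 0 := by
  rw [Mm_self]
  exact mul_ne_zero ha fun h => hz (H.jj_fst ho h)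

lemma HB.PS_Sig (H : HB σ n) (l : ℕ) {a : E} (ha : a ≠ 0) : PS E (Sig σ n l a) := by
  refine ⟨?_, ?_⟩
  · rintro _ (rfl | ⟨i, o, c, ho, rfl⟩)
    · exact ⟨_, LinearMap.inr_injective, rfl⟩
    · refine ⟨_, ?_, rfl⟩
      rw [injective_iff_map_eq_zero]
      intro z hz
      by_contra h
      exact H.Mm_ne ha i ho c h (by rw [hz]; rfl)
  · rintro ⟨p, y⟩ hv
    by_cases hp : p = 0
    · refine ⟨_, ⟨Or.inl rfl, y, by rw [hp]; rfl⟩, ?_⟩
      rintro _ ⟨rfl | ⟨i, o, c, ho, rfl⟩, hX⟩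
      · rfl
      · obtain ⟨z, hz⟩ := hX
        by_cases h : z = 0
        · exact absurd (by rw [← hz, h, map_zero]) hv
        · exact absurd (by rw [hz, hp]; rfl) (H.Mm_ne ha i ho c h)
    · have hne : (univ.filter fun i : Fin l => p i ≠ 0).Nonempty := by
        by_contra hc
        rw [not_nonempty_iff_eq_empty, filter_eq_empty_iff] at hc
        exact hp (funext fun i => not_not.mp (hc (mem_univ i)))
      obtain ⟨i, hi, hmin⟩ := Finset.exists_min_image _ (fun i => i) hne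
      have hi0 := (mem_filter.mp hi).2
      have hlt : ∀ i', i' < i → p i' = 0 := fun i' h => by
        by_contra hc
        exact absurd (hmin i' (mem_filter.mpr ⟨mem_univ _, hc⟩)) (not_le.mpr h)
      have h0 : (p i / a, y) ≠ 0 := fun h => div_ne_zero hi0 ha (congrArg Prod.fst h)
      obtain ⟨o, ho, hu⟩ := UT_unique (σ := σ) h0
      have ho0 : o ≠ some 0 := by
        rintro rfl
        exact div_ne_zero hi0 ha (mem_UT_zero.mp ho)
      obtain ⟨z, hz⟩ := H.mem_jj.mp ho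
      have hz0 : z ≠ 0 := by
        rintro rfl
        exact h0 (by rw [← hz, map_zero])
      refine ⟨LinearMap.range (Mm σ n a i o fun i' => p i' / z),
        ⟨Or.inr ⟨i, o, _, ho0, rfl⟩, z, Prod.ext (funext fun i' => ?_) ?_⟩, ?_⟩
      · rcases lt_trichotomy i' i with h1 | h1 | h1
        · rw [Mm_lt a h1]; exact (hlt i' h1).symm
        · rw [h1, Mm_self, hz]; exact mul_div_cancel₀ _ ha
        · rw [Mm_gt a h1]; exact div_mul_cancel₀ _ hz0
      · rw [Mm_snd, hz]
      · rintro _ ⟨rfl | ⟨i', o', c', ho', rfl⟩, hX⟩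
        · obtain ⟨y', hy'⟩ := hX
          exact absurd (congrArg Prod.fst hy').symm hp
        · obtain ⟨z', hz'⟩ := hX
          have hz0' : z' ≠ 0 := by
            rintro rfl
            exact hv (by rw [← hz', map_zero])
          have h1 : p i' ≠ 0 := by
            have := H.Mm_ne ha i' ho' c' hz0'
            rwa [hz'] at this
          have h2 : i' = i := by
            refine le_antisymm (not_lt.mp fun h => hi0 ?_) (hmin i' (mem_filter.mpr ⟨mem_univ _, h1⟩))
            have := Mm_lt (σ := σ) (n := n) a h o' c' z'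
            rwa [hz'] at this
          subst h2
          have h3 : jj σ n o' z' = (p i' / a, y) := by
            refine Prod.ext ?_ ?_
            · have := Mm_self (σ := σ) (n := n) a i' o' c' z'
              rw [hz'] at this
              rw [eq_div_iff ha, mul_comm]
              exact this.symm
            · rw [← Mm_snd a i' o' c' z', hz']
          have h4 : o' = o := hu o' (H.mem_jj.mpr ⟨z', h3⟩)
          subst h4
          have h5 : z' = z := jj_inj o' (h3.trans hz.symm)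
          subst h5
          congr 1
          refine Mm_congr a i' o' fun i'' h => ?_
          have := Mm_gt (σ := σ) (n := n) a h o' c' z'
          rw [hz'] at this
          rw [eq_div_iff hz0]
          exact this.symm

end Pool.Agent.P.MP_3b9ee7_co.NP
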