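import Pool.Agent.P.MP_3b9ee7_co.NP.Lift

set_option autoImplicit false

namespace Pool.Agent.P.MP_3b9ee7_co.NP

open Finset
open scoped Classical

variable {K E : Type} [Field K] [Field E] [Algebra K E]

/-- Shear of a product along a linear map. -/
def tau {M : Type} [AddCommGroup M] [Module K M] (f : E →ₗ[K] M) : M × E →ₗ[K] M × E :=
  (LinearMap.fst K M E + f.comp (LinearMap.snd K M E)).prod (LinearMap.snd K M E)

lemma mem_tau {M : Type} [AddCommGroup M] [Module K M] {f : E →ₗ[K] M} {U : Submodule K (M × E)}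
    {p : M} {y : E} : (p, y) ∈ U.map (tau f) ↔ ∃ p0, (p0, y) ∈ U ∧ p = p0 + f y := by
  rw [Submodule.mem_map]
  constructor
  · rintro ⟨⟨p0, y0⟩, h, e⟩
    have e1 : p0 + f y0 = p := congrArg Prod.fst e
    have e2 : y0 = y := congrArg Prod.snd e
    subst e2
    exact ⟨p0, h, e1.symm⟩
  · rintro ⟨p0, h, rfl⟩
    exact ⟨(p0, y), h, rfl⟩

lemma tau_bij {M : Type} [AddCommGroup M] [Module K M] (f : E →ₗ[K] M) :
    Function.Bijective (tau f) := by
  refine ⟨fun v w e => ?_, fun v => ⟨(v.1 - f v.2, v.2), Prod.ext (sub_add_cancel _ _) rfl⟩⟩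
  have e1 : v.1 + f v.2 = w.1 + f w.2 := congrArg Prod.fst e
  have e2 : v.2 = w.2 := (congrArg Prod.snd e : (tau f v).2 = (tau f w).2)
  rw [e2] at e1
  exact Prod.ext (add_right_cancel e1) e2

lemma PS.map' {V W : Type} [AddCommGroup V] [Module K V] [AddCommGroup W] [Module K W]
    {S : Set (Submodule K V)} (hS : PS E S) {g : V →ₗ[K] W} (hg : Function.Bijective g) :
    PS E ((fun U : Submodule K V => U.map g) '' S) :=
  hS.map (LinearEquiv.ofBijective g hg)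

/-- The linear map given by an array of coefficients. -/
def Lar (σ : E ≃ₐ[K] E) (n : ℕ) {l : ℕ} (η : Fin l → Fin (n + 1) → E) : E →ₗ[K] (Fin l → E) :=
  LinearMap.pi fun i => lin σ n (ext0 n (η i))

lemma Lar_apply (σ : E ≃ₐ[K] E) (n : ℕ) {l : ℕ} (η : Fin l → Fin (n + 1) → E) (y : E) (i : Fin l) :
    Lar σ n η y i = ev σ n (ext0 n (η i)) y := rfl

def InA (K : Type) {E : Type} [Field K] [Field E] [Algebra K E] (n : ℕ) {l : ℕ}
    (η : Fin (l + 1) → Fin (n + 1) → E) : Prop :=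
  tr K (ext0 n (η 0) n) = 0 ∧ ∀ i, i ≠ 0 → ext0 n (η i) n = 0

lemma InA.tr0 {n l : ℕ} {η : Fin (l + 1) → Fin (n + 1) → E} (h : InA K n η) (i : Fin (l + 1)) :
    tr K (ext0 n (η i) n) = 0 := by
  by_cases hi : i = 0
  · rw [hi]; exact h.1
  · rw [h.2 i hi, map_zero]

/-- An unmarked member of a translated spread of the quotient. -/
noncomputable def Mem (σ : E ≃ₐ[K] E) (n : ℕ) {l : ℕ} (η : Fin l → Fin (n + 1) → E) (a : E)
    (i : Fin l) (o : Option E) (c : Fin l → E) : Submodule K ((Fin l → E) × E) :=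
  (LinearMap.range (Mm σ n a i o c)).map (tau (Lar σ n η))

noncomputable def rowG (σ : E ≃ₐ[K] E) (n : ℕ) {l : ℕ} (η : Fin l → Fin (n + 1) → E) (a : E)
    (i : Fin l) (o : Option E) (c : Fin l → E) (i' : Fin l) (j : ℕ) : E :=
  (if i' < i then 0 else if i' = i then a * bT σ n o j else if j = n then c i' else 0) +
    ext0 n (η i') j

variable {σ : E ≃ₐ[K] E} {n l : ℕ}

lemma ext0_inj {w w' : Fin (n + 1) → E} (h : ∀ j, j ≤ n → ext0 n w j = ext0 n w' j) : w = w' :=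
  funext fun j => by rw [← ext0_fin w j, ← ext0_fin w' j, h j.1 (by have := j.2; omega)]

variable [Fintype K] [Fintype E]

lemma HB.memG (H : HB σ n) {η : Fin l → Fin (n + 1) → E} {a : E} {i : Fin l} {o : Option E}
    {c : Fin l → E} (ho : IsG σ n o) {p : Fin l → E} {y : E} :
    (p, y) ∈ Mem σ n η a i o c ↔ ∀ i', p i' = ev σ n (rowG σ n η a i o c i') y := by
  have key : ∀ i', (Mm σ n a i o c ((σ ^ n) y)).1 i' + Lar σ n η y i' =
      ev σ n (rowG σ n η a i o c i') y := by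
    intro i'
    unfold rowG
    rw [ev_add, Lar_apply, Mm_fst, jj_G ho, H.inv2]
    congr 1
    split_ifs
    · rw [ev_zero]
    · rw [ev_mul]
    · rw [ev_last]
  rw [Mem, mem_tau]
  constructor
  · rintro ⟨p0, ⟨z, hz⟩, rfl⟩ i'
    have h1 : σ z = y := by
      have := congrArg Prod.snd hz
      rwa [Mm_snd, jj_G ho] at this
    have h2 : z = (σ ^ n) y := by rw [← h1, H.inv1]
    rw [← key, ← h2, hz]
    rfl
  · intro h
    refine ⟨(Mm σ n a i o c ((σ ^ n) y)).1, ⟨(σ ^ n) y, Prod.ext rfl ?_⟩, funext fun i' => ?_⟩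
    · rw [Mm_snd, jj_G ho, H.inv2]
    · rw [h, ← key]; rfl

lemma HB.memH (H : HB σ n) (η : Fin l → Fin (n + 1) → E) {a : E} (i : Fin l) {o : Option E}
    (c : Fin l → E) (ho : ¬ IsG σ n o) :
    ∃ (x : E) (p0 : Fin l → E), x ≠ 0 ∧ p0 i = a * x ∧ (∀ i', i' < i → p0 i' = 0) ∧
      (p0, 0) ∈ Mem σ n η a i o c ∧ (∀ p, (p, 0) ∈ Mem σ n η a i o c → ∃ t : K, p = t • p0) ∧
      ∀ y, (∃ p, (p, y) ∈ Mem σ n η a i o c) ↔ tr K ((σ x)⁻¹ * y) = 0 := by
  obtain ⟨x, hx, h1, h2, h3⟩ := H.point ho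
  obtain ⟨z0, hz0⟩ := H.mem_jj.mp h1
  refine ⟨x, (Mm σ n a i o c z0).1, hx, by rw [Mm_self, hz0], fun i' h => Mm_lt a h o c z0,
    mem_tau.mpr ⟨_, ⟨z0, Prod.ext rfl (by rw [Mm_snd, hz0])⟩, by simp⟩, fun p hp => ?_,
    fun y => ?_⟩
  · obtain ⟨p1, ⟨z, hz⟩, e⟩ := mem_tau.mp hp
    rw [map_zero, add_zero] at e
    have e2 : (jj σ n o z).2 = 0 := by rw [← Mm_snd a i o c z, hz]
    obtain ⟨t, ht⟩ := h2 (jj σ n o z).1 (by rw [← e2]; exact H.mem_jj.mpr ⟨z, rfl⟩)
    have e3 : z = t • z0 := jj_inj (σ := σ) (n := n) o (by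
      rw [map_smul, hz0]
      exact Prod.ext ht (by rw [e2]; simp))
    refine ⟨t, ?_⟩
    rw [e, ← Prod.smul_fst, ← map_smul, ← e3, hz]
  · rw [← h3]
    constructor
    · rintro ⟨p, hp⟩
      obtain ⟨p1, ⟨z, hz⟩, -⟩ := mem_tau.mp hp
      have e2 : (jj σ n o z).2 = y := by rw [← Mm_snd a i o c z, hz]
      exact ⟨(jj σ n o z).1, by rw [← e2]; exact H.mem_jj.mpr ⟨z, rfl⟩⟩
    · rintro ⟨p, hp⟩
      obtain ⟨z, hz⟩ := H.mem_jj.mp hp
      exact ⟨_, mem_tau.mpr ⟨_, ⟨z, Prod.ext rfl (by rw [Mm_snd, hz])⟩, rfl⟩⟩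

lemma HB.tr_bar (H : HB σ n) {a : E} (ha : tr K a ≠ 0) {o : Option E} (ho : IsG σ n o)
    (h0 : o ≠ some 0) : tr K (a * bT σ n o n) ≠ 0 := by
  obtain ⟨β, hβ⟩ := H.bar o
  have : β ≠ 0 := fun h => bar_ne ho h0 (by rw [← hβ, h, map_zero])
  rw [← hβ, mul_comm, ← Algebra.smul_def, map_smul, smul_eq_mul]
  exact mul_ne_zero this ha

omit [Fintype K] [Fintype E] in
lemma ne_of_tr {a : E} (ha : tr K a ≠ 0) : a ≠ 0 := fun h => ha (by rw [h, map_zero])

/-- The marked member. -/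
def iota (σ : E ≃ₐ[K] E) (n : ℕ) {l : ℕ} (η : Fin l → Fin (n + 1) → E) :
    E →ₗ[K] (Fin l → E) × E := (Lar σ n η).prod LinearMap.id

omit [Fintype K] [Fintype E] in
lemma mem_iota {η : Fin l → Fin (n + 1) → E} {p : Fin l → E} {y : E} :
    (p, y) ∈ LinearMap.range (iota σ n η) ↔ p = Lar σ n η y := by
  constructor
  · rintro ⟨z, hz⟩
    have e1 : Lar σ n η z = p := congrArg Prod.fst hz
    have e2 : z = y := congrArg Prod.snd hz
    rw [← e1, e2]
  · rintro rfl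
    exact ⟨y, rfl⟩

lemma HB.not_special (H : HB σ n) {η η' : Fin (l + 1) → Fin (n + 1) → E} (hη : InA K n η)
    (hη' : InA K n η') {a : E} (ha : tr K a ≠ 0) (i : Fin (l + 1)) {o : Option E}
    (h0 : o ≠ some 0) (c : Fin (l + 1) → E) :
    Mem σ n η a i o c ≠ LinearMap.range (iota σ n η') := by
  intro h
  by_cases ho : IsG σ n o
  · have h1 : ∀ y, ev σ n (ext0 n (η' i)) y = ev σ n (rowG σ n η a i o c i) y := fun y =>
      (H.memG ho).mp (h ▸ mem_iota.mpr rfl) i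
    have h2 := congrArg (tr K) (H.coef h1 le_rfl)
    rw [rowG, if_neg (lt_irrefl _), if_pos rfl, map_add, hη.tr0, hη'.tr0, add_zero] at h2
    exact H.tr_bar ha ho h0 h2.symm
  · obtain ⟨x, p0, hx, h1, -, h3, -⟩ := H.memH η (a := a) i c ho
    rw [h, mem_iota, map_zero] at h3
    rw [h3] at h1
    exact mul_ne_zero (ne_of_tr ha) hx h1.symm

lemma HB.G_of_G (H : HB σ n) {η η' : Fin l → Fin (n + 1) → E} {a a' : E} (ha' : a' ≠ 0)
    {i i' : Fin l} {o o' : Option E} {c c' : Fin l → E}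
    (h : Mem σ n η a i o c = Mem σ n η' a' i' o' c') (ho : IsG σ n o) : IsG σ n o' := by
  by_contra ho'
  obtain ⟨x, p0, hx, h1, -, h3, -⟩ := H.memH η' (a := a') i' c' ho'
  rw [← h, H.memG ho] at h3
  have := h3 i'
  rw [h1, ← lin_apply, map_zero] at this
  exact mul_ne_zero ha' hx this

lemma HB.G_two (H : HB σ n) {η η' : Fin (l + 1) → Fin (n + 1) → E} (hη : InA K n η)
    (hη' : InA K n η') {a a' : E} (ha : tr K a ≠ 0) (ha' : tr K a' ≠ 0) {i i' : Fin (l + 1)}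
    {o o' : Option E} (h0 : o ≠ some 0) (h0' : o' ≠ some 0) {c c' : Fin (l + 1) → E}
    (h : Mem σ n η a i o c = Mem σ n η' a' i' o' c') (ho : IsG σ n o) (ho' : IsG σ n o') :
    tr K (bT σ n o n * a) = tr K (bT σ n o' n * a') ∧ (a = a' → o = o' → η = η') := by
  have h1 : ∀ r j, j ≤ n → rowG σ n η a i o c r j = rowG σ n η' a' i' o' c' r j := by
    intro r j hj
    refine H.coef (fun y => ?_) hj
    exact (H.memG ho').mp (h ▸ (H.memG ho).mpr fun _ => rfl) r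
  have hi : i = i' := by
    rcases lt_trichotomy i i' with h2 | h2 | h2
    · have := congrArg (tr K) (h1 i n le_rfl)
      rw [rowG, rowG, if_neg (lt_irrefl _), if_pos rfl, if_pos h2, map_add, map_add, hη.tr0,
        hη'.tr0, map_zero, add_zero, add_zero] at this
      exact absurd this (H.tr_bar ha ho h0)
    · exact h2
    · have := congrArg (tr K) (h1 i' n le_rfl)
      rw [rowG, rowG, if_pos h2, if_neg (lt_irrefl _), if_pos rfl, map_add, map_add, hη.tr0,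
        hη'.tr0, map_zero, add_zero, add_zero] at this
      exact absurd this.symm (H.tr_bar ha' ho' h0')
  subst hi
  constructor
  · have := congrArg (tr K) (h1 i n le_rfl)
    rw [rowG, rowG, if_neg (lt_irrefl _), if_pos rfl, if_neg (lt_irrefl _), if_pos rfl, map_add,
      map_add, hη.tr0, hη'.tr0, add_zero, add_zero] at this
    rw [mul_comm, this, mul_comm]
  · rintro rfl rfl
    funext r
    refine ext0_inj fun j hj => ?_
    have h2 := h1 r j hj
    have h3 := h1 r n le_rfl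
    unfold rowG at h2 h3
    by_cases c1 : r < i
    · rw [if_pos c1, if_pos c1] at h2
      exact add_left_cancel h2
    · by_cases c2 : r = i
      · rw [if_neg c1, if_pos c2, if_neg c1, if_pos c2] at h2
        exact add_left_cancel h2
      · have hr : r ≠ 0 := by
          rintro rfl
          exact c1 (lt_of_le_of_ne (Fin.zero_le _) c2)
        rw [if_neg c1, if_neg c2, if_neg c1, if_neg c2, if_pos rfl, if_pos rfl, hη.2 r hr,
          hη'.2 r hr, add_zero, add_zero] at h3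
        rw [if_neg c1, if_neg c2, if_neg c1, if_neg c2, h3] at h2
        exact add_left_cancel h2

omit [Fintype K] in
lemma prop_of_hyp {x x' : E} (hx : x ≠ 0) (hx' : x' ≠ 0)
    (h : ∀ y, tr K ((σ x)⁻¹ * y) = 0 → tr K ((σ x')⁻¹ * y) = 0) : ∃ t : K, x = t • x' := by
  have h1 : σ x ≠ 0 := (map_ne_zero _).mpr hx
  have h2 : σ x' ≠ 0 := (map_ne_zero _).mpr hx'
  obtain ⟨t, ht⟩ := prop_of_ker (inv_ne_zero h1) h
  refine ⟨t, σ.injective ?_⟩
  rw [map_smul, Algebra.smul_def] at *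
  field_simp at ht
  linear_combination ht

lemma HB.H_two (H : HB σ n) {η η' : Fin l → Fin (n + 1) → E} {a a' : E} (ha : a ≠ 0)
    (ha' : a' ≠ 0) {i i' : Fin l} {o o' : Option E} {c c' : Fin l → E}
    (h : Mem σ n η a i o c = Mem σ n η' a' i' o' c') (ho : ¬ IsG σ n o) :
    ∃ t : K, a' = t • a := by
  have ho' : ¬ IsG σ n o' := fun h' => ho (H.G_of_G ha h.symm h')
  obtain ⟨x, p0, hx, h1, h2, h3, h4, h5⟩ := H.memH η (a := a) i c ho
  obtain ⟨x', p0', hx', h1', h2', h3', h4', h5'⟩ := H.memH η' (a := a') i' c' ho'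
  obtain ⟨t, ht⟩ := prop_of_hyp (σ := σ) hx hx' fun y hy => (h5' y).mp (h ▸ (h5 y).mpr hy)
  obtain ⟨s, hs⟩ := h4 p0' (h ▸ h3')
  obtain ⟨s', hs'⟩ := h4' p0 (h ▸ h3)
  have hi : i = i' := by
    rcases lt_trichotomy i i' with e | e | e
    · have := congrFun hs' i
      rw [Pi.smul_apply, h2' i e, smul_zero, h1] at this
      exact absurd this (mul_ne_zero ha hx)
    · exact e
    · have := congrFun hs i'
      rw [Pi.smul_apply, h2 i' e, smul_zero, h1'] at this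
      exact absurd this (mul_ne_zero ha' hx')
  subst hi
  have := congrFun hs i
  rw [Pi.smul_apply, h1, h1', ht] at this
  refine ⟨s * t, mul_right_cancel₀ hx' ?_⟩
  rw [this, mul_smul_comm, smul_smul, smul_mul_assoc]

lemma HB.H_same (H : HB σ n) {η η' : Fin l → Fin (n + 1) → E} {a : E} (ha : a ≠ 0)
    {i i' : Fin l} {o o' : Option E} (h0 : o ≠ some 0) (h0' : o' ≠ some 0) {c c' : Fin l → E}
    (h : Mem σ n η a i o c = Mem σ n η' a i' o' c') {p0 : Fin l → E} (hp : p0 ≠ 0)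
    (h3 : (p0, 0) ∈ Mem σ n η a i o c)
    (h4 : ∀ p, (p, 0) ∈ Mem σ n η a i o c → ∃ t : K, p = t • p0) {y : E}
    (hy : ∃ p, (p, y) ∈ Mem σ n η a i o c) : ∃ t : K, Lar σ n η y - Lar σ n η' y = t • p0 := by
  have fx : ∀ (θ : Fin l → Fin (n + 1) → E) (U : Submodule K ((Fin l → E) × E)) p,
      (p, (0 : E)) ∈ U.map (tau (Lar σ n θ)) ↔ (p, (0 : E)) ∈ U := by
    intro θ U p
    rw [mem_tau]
    simp
  have e : LinearMap.range (Mm σ n a i o c) = LinearMap.range (Mm σ n a i' o' c') :=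
    ((H.PS_Sig l ha).2 (p0, 0) fun h => hp (congrArg Prod.fst h)).unique
      ⟨Or.inr ⟨i, o, c, h0, rfl⟩, (fx η _ _).mp h3⟩
      ⟨Or.inr ⟨i', o', c', h0', rfl⟩, (fx η' _ _).mp (h ▸ h3 :)⟩
  obtain ⟨p, hp1⟩ := hy
  obtain ⟨p1, m1, e1⟩ := mem_tau.mp hp1
  rw [h] at hp1
  obtain ⟨p2, m2, e2⟩ := mem_tau.mp hp1
  rw [← e] at m2
  obtain ⟨t, ht⟩ := h4 (p2 - p1) ((fx η _ _).mpr (by simpa using Submodule.sub_mem _ m2 m1))
  refine ⟨t, ?_⟩
  rw [← ht]
  linear_combination e2 - e1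

lemma HB.row_eq (H : HB σ n) {w w' : Fin (n + 1) → E} {γ u : E} (hγ : γ ≠ 0)
    (h : ∀ y, ev σ n (ext0 n w) y - ev σ n (ext0 n w') y = tr K (γ * y) • u)
    (hn : ext0 n w n = ext0 n w' n) : w = w' := by
  have h1 : ∀ j, j ≤ n → ext0 n w j - ext0 n w' j = 0 * (σ ^ j) 0 + u * (σ ^ j) γ :=
    fun j hj => H.coef_two (c := fun j => ext0 n w j - ext0 n w' j)
      (fun y => by rw [ev_sub, h, smul_zero, zero_add]) hj
  have h2 := h1 n le_rfl
  rw [hn, sub_self, zero_mul, zero_add] at h2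
  have hu : u = 0 := (mul_eq_zero.mp h2.symm).resolve_right ((map_ne_zero _).mpr hγ)
  refine ext0_inj fun j hj => sub_eq_zero.mp ?_
  rw [h1 j hj, hu]
  simp

lemma HB.card_D (H : HB σ n) {p0 : Fin (l + 1) → E} (hp : p0 ≠ 0) {γ : E} (hγ : γ ≠ 0)
    (F : Finset (Fin (l + 1) → Fin (n + 1) → E)) (hA : ∀ η ∈ F, InA K n η)
    (hF : ∀ η ∈ F, ∀ η' ∈ F, ∀ y, tr K (γ * y) = 0 →
      ∃ t : K, Lar σ n η y - Lar σ n η' y = t • p0) :
    F.card ≤ Fintype.card K ^ n * Fintype.card K ^ n := by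
  rcases F.eq_empty_or_nonempty with rfl | ⟨η0, h0⟩
  · simp
  obtain ⟨y0, hy0⟩ := exists_tr_one (K := K) hγ
  have hy : y0 ≠ 0 := by
    rintro rfl
    simp at hy0
  have key : ∀ η, ∃ δ : E, η ∈ F → tr K (δ * y0) = 0 ∧ ∀ y, (Lar σ n η - Lar σ n η0) y =
      tr K (δ * y) • p0 + tr K (γ * y) • (Lar σ n η - Lar σ n η0) y0 := by
    intro η
    by_cases h : η ∈ F
    · obtain ⟨δ, hδ⟩ := decomp (Lar σ n η - Lar σ n η0) hp hy0 (hF η h η0 h0)
      exact ⟨δ, fun _ => hδ⟩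
    · exact ⟨0, fun h' => absurd h' h⟩
  choose δ hδ using key
  rw [show Fintype.card K ^ n * Fintype.card K ^ n =
    ((univ.filter fun y : E => tr K (y0 * y) = 0) ×ˢ
      (univ.filter fun y : E => tr K (1 * y) = 0)).card by
    rw [card_product, H.card_fibre hy, H.card_fibre one_ne_zero]]
  refine card_le_card_of_injOn (fun η => (δ η, ext0 n (η 0) n)) ?_ ?_
  · intro η h
    have h' := mem_coe.mp h
    refine mem_coe.mpr (mem_product.mpr ⟨mem_filter.mpr ⟨mem_univ _, ?_⟩,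
      mem_filter.mpr ⟨mem_univ _, ?_⟩⟩)
    · rw [mul_comm]; exact (hδ η h').1
    · rw [one_mul]; exact (hA η h').1
  · intro η h η' h' e
    have h1 := mem_coe.mp h
    have h2 := mem_coe.mp h'
    have e1 : δ η = δ η' := congrArg Prod.fst e
    have e2 : ext0 n (η 0) n = ext0 n (η' 0) n := congrArg Prod.snd e
    funext r
    refine H.row_eq hγ (u := (Lar σ n η - Lar σ n η0) y0 r - (Lar σ n η' - Lar σ n η0) y0 r)
      (fun y => ?_) ?_
    · have a1 := congrFun ((hδ η h1).2 y) r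
      have a2 := congrFun ((hδ η' h2).2 y) r
      rw [← e1] at a2
      simp only [LinearMap.sub_apply, Pi.sub_apply, Pi.add_apply, Pi.smul_apply, Lar_apply,
        smul_sub] at a1 a2 ⊢
      linear_combination a1 - a2
    · by_cases hr : r = 0
      · rw [hr]; exact e2
      · rw [(hA η h1).2 r hr, (hA η' h2).2 r hr]

end Pool.Agent.P.MP_3b9ee7_co.NP
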